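import Pool.Agent.U272.AS.Emb

/-!
# Families of lines with a symmetry that contain a given family: the three involutions
-/

set_option autoImplicit false

namespace Pool.Agent.U272.AS

open Finset Filter Topology KLev.Levels

/-- the vertices as a finite set -/
noncomputable def Vf (Γ : Finset (ℝ × ℝ)) (k : ℕ) : Finset (ℝ × ℝ) := (vertices_finite Γ k).toFinset

lemma mem_Vf {Γ : Finset (ℝ × ℝ)} {k : ℕ} {p : ℝ × ℝ} : p ∈ Vf Γ k ↔ IsVertex Γ k p := by
  unfold Vf
  rw [Set.Finite.mem_toFinset]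
  exact Iff.rfl

/-- the reflection `(x, y) ↦ (x, -y)` -/
theorem mirror_y (k n : ℕ) : ∃ Γ : Finset (ℝ × ℝ), Γ.card = 2 * n ∧
    (∀ l ∈ Γ, (-l.1, -l.2) ∈ Γ) ∧ e k n ≤ complexity Γ (n + k) := by
  classical
  obtain ⟨Γ, hn, hc⟩ := exists_ext k n
  have ev1 : ∀ᶠ B : ℝ in atTop, ∀ l ∈ Γ, -l.2 < B := by
    rw [Filter.eventually_all_finset]
    intro l _
    exact eventually_gt_atTop _
  have ev2 : ∀ᶠ B : ℝ in atTop, ∀ p ∈ Vf Γ k, ∀ l ∈ Γ, (-l.1 * p.1 - l.2 - p.2) / 2 < B := by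
    rw [Filter.eventually_all_finset]
    intro p _
    rw [Filter.eventually_all_finset]
    intro l _
    exact eventually_gt_atTop _
  obtain ⟨B, hB1, hB2⟩ := (ev1.and ev2).exists
  set g : ℝ × ℝ → ℝ × ℝ := fun l => (-l.1, -l.2) with hg
  have hginj : Function.Injective g := by
    intro l m h
    rw [hg, Prod.mk.injEq] at h
    exact Prod.ext (neg_injective h.1) (neg_injective h.2)
  set Γ₁ := Γ.image (am 0 B 0) with hΓ₁
  set Γ₂ := Γ₁.image g with hΓ₂
  have hc1 : Γ₁.card = n := by rw [hΓ₁, card_image_of_injective _ (am_inj 0 B 0), hn]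
  have hc2 : Γ₂.card = n := by rw [hΓ₂, card_image_of_injective _ hginj, hc1]
  have hpos : ∀ l ∈ Γ₁, 0 < l.2 := by
    intro l hl
    obtain ⟨m, hm, rfl⟩ := mem_image.1 hl
    have := hB1 m hm
    show 0 < m.2 + B - 0 * (m.1 + 0)
    linarith
  have hd : Disjoint Γ₁ Γ₂ := by
    rw [Finset.disjoint_left]
    intro l hl hl2
    obtain ⟨m, hm, rfl⟩ := mem_image.1 hl2
    have h1 := hpos m hm
    have h2 : 0 < -m.2 := hpos _ hl
    linarith
  have hemb := embed (Γ := Γ) (k := k) 0 B 0 (Γ₂ := Γ₂) (Γ₃ := ∅) hd (disjoint_empty_right _)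
    (disjoint_empty_right _) (by
      intro p hp l hl
      obtain ⟨m, hm, rfl⟩ := mem_image.1 hl
      obtain ⟨j, hj, rfl⟩ := mem_image.1 hm
      have := hB2 p (mem_Vf.2 hp) j hj
      simp only [hg, height, am]
      linarith) (by
      intro p _ l hl
      exact absurd hl (notMem_empty _))
  rw [union_empty, hc, hc2, Nat.add_comm k n] at hemb
  refine ⟨Γ₁ ∪ Γ₂, ?_, ?_, hemb⟩
  · rw [card_union_of_disjoint hd, hc1, hc2]
    omega
  · intro l hl
    rw [mem_union] at hl ⊢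
    rcases hl with hl | hl
    · exact Or.inr (mem_image_of_mem g hl)
    · obtain ⟨m, hm, rfl⟩ := mem_image.1 hl
      left
      have : ((-(g m).1, -(g m).2) : ℝ × ℝ) = m := by
        simp only [hg, neg_neg]
      rw [this]
      exact hm

/-- the reflection `(x, y) ↦ (-x, y)` -/
theorem mirror_x (k n : ℕ) : ∃ Γ : Finset (ℝ × ℝ), Γ.card = 3 * n ∧
    (∀ l ∈ Γ, (-l.1, l.2) ∈ Γ) ∧ e k n ≤ complexity Γ (n + k) := by
  classical
  obtain ⟨Γ, hn, hc⟩ := exists_ext k n
  have evA : ∀ᶠ A : ℝ in atTop, ∀ l ∈ Γ, -l.1 < A := by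
    rw [Filter.eventually_all_finset]
    intro l _
    exact eventually_gt_atTop _
  obtain ⟨A, hA⟩ := evA.exists
  have evC : ∀ᶠ C : ℝ in atTop, ∀ p ∈ Vf Γ k, ∀ l ∈ Γ,
      (-(l.1 + A) * p.1 + l.2 - p.2 - A * p.1) / (2 * (l.1 + A)) < C := by
    rw [Filter.eventually_all_finset]
    intro p _
    rw [Filter.eventually_all_finset]
    intro l _
    exact eventually_gt_atTop _
  obtain ⟨C, hC⟩ := evC.exists
  have evD : ∀ᶠ D : ℝ in atTop, ∀ p ∈ Vf Γ k, p.2 + A * p.1 < D := by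
    rw [Filter.eventually_all_finset]
    intro p _
    exact eventually_gt_atTop _
  obtain ⟨D, hD⟩ := evD.exists
  set g : ℝ × ℝ → ℝ × ℝ := fun l => (-l.1, l.2) with hg
  have hginj : Function.Injective g := by
    intro l m h
    rw [hg, Prod.mk.injEq] at h
    exact Prod.ext (neg_injective h.1) h.2
  set Γ₁ := Γ.image (am A 0 C) with hΓ₁
  set Γ₂ := Γ₁.image g with hΓ₂
  set Γ₃ := (range n).image (fun i : ℕ => (((0 : ℝ), D + (i : ℝ)) : ℝ × ℝ)) with hΓ₃
  have hc1 : Γ₁.card = n := by rw [hΓ₁, card_image_of_injective _ (am_inj A 0 C), hn]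
  have hc2 : Γ₂.card = n := by rw [hΓ₂, card_image_of_injective _ hginj, hc1]
  have hc3 : Γ₃.card = n := by
    rw [hΓ₃, card_image_of_injective, card_range]
    intro i j h
    have h2 : D + (i : ℝ) = D + (j : ℝ) := congrArg Prod.snd h
    have h3 : (i : ℝ) = j := by linarith
    exact_mod_cast h3
  have hpos : ∀ l ∈ Γ₁, 0 < l.1 := by
    intro l hl
    obtain ⟨m, hm, rfl⟩ := mem_image.1 hl
    have := hA m hm
    show 0 < m.1 + A
    linarith
  have hneg : ∀ l ∈ Γ₂, l.1 < 0 := by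
    intro l hl
    obtain ⟨m, hm, rfl⟩ := mem_image.1 hl
    have := hpos m hm
    show -m.1 < 0
    linarith
  have hzero : ∀ l ∈ Γ₃, l.1 = 0 := by
    intro l hl
    obtain ⟨i, -, rfl⟩ := mem_image.1 hl
    rfl
  have hd : Disjoint Γ₁ Γ₂ := by
    rw [Finset.disjoint_left]
    intro l hl hl2
    linarith [hpos l hl, hneg l hl2]
  have hd13 : Disjoint Γ₁ Γ₃ := by
    rw [Finset.disjoint_left]
    intro l hl hl2
    linarith [hpos l hl, hzero l hl2]
  have hd23 : Disjoint Γ₂ Γ₃ := by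
    rw [Finset.disjoint_left]
    intro l hl hl2
    linarith [hneg l hl, hzero l hl2]
  have hemb := embed (Γ := Γ) (k := k) A 0 C (Γ₂ := Γ₂) (Γ₃ := Γ₃) hd hd13 hd23 (by
      intro p hp l hl
      obtain ⟨m, hm, rfl⟩ := mem_image.1 hl
      obtain ⟨j, hj, rfl⟩ := mem_image.1 hm
      have h1 := hC p (mem_Vf.2 hp) j hj
      have h2 : 0 < j.1 + A := by linarith [hA j hj]
      rw [div_lt_iff₀ (by linarith)] at h1
      simp only [hg, height, am]
      linarith) (by
      intro p hp l hl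
      obtain ⟨i, -, rfl⟩ := mem_image.1 hl
      have h1 := hD p (mem_Vf.2 hp)
      have h2 : (0 : ℝ) ≤ i := Nat.cast_nonneg i
      simp only [height]
      linarith)
  rw [hc, hc2, Nat.add_comm k n] at hemb
  refine ⟨Γ₁ ∪ Γ₂ ∪ Γ₃, ?_, ?_, hemb⟩
  · rw [card_union_of_disjoint (disjoint_union_left.2 ⟨hd13, hd23⟩), card_union_of_disjoint hd, hc1,
      hc2, hc3]
    omega
  · intro l hl
    rw [mem_union, mem_union] at hl ⊢
    rcases hl with (hl | hl) | hl
    · exact Or.inl (Or.inr (mem_image_of_mem g hl))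
    · obtain ⟨m, hm, rfl⟩ := mem_image.1 hl
      left; left
      have : ((-(g m).1, (g m).2) : ℝ × ℝ) = m := by
        simp only [hg, neg_neg]
      rw [this]
      exact hm
    · right
      have h1 := hzero l hl
      have : ((-l.1, l.2) : ℝ × ℝ) = l := by
        apply Prod.ext
        · simp only [h1, neg_zero]
        · rfl
      rw [this]
      exact hl

/-- the point reflection `(x, y) ↦ (-x, -y)` -/
theorem point_sym (k n : ℕ) : ∃ Γ : Finset (ℝ × ℝ), Γ.card = 3 * n ∧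
    (∀ l ∈ Γ, (l.1, -l.2) ∈ Γ) ∧ e k n ≤ complexity Γ (n + k) := by
  classical
  obtain ⟨Γ, hn, hc⟩ := exists_ext k n
  have evC : ∀ᶠ C : ℝ in atTop, ∀ p ∈ Vf Γ k, 1 - p.1 < C := by
    rw [Filter.eventually_all_finset]
    intro p _
    exact eventually_gt_atTop _
  obtain ⟨C, hC⟩ := evC.exists
  have evB1 : ∀ᶠ B : ℝ in atTop, ∀ l ∈ Γ, C * l.1 - l.2 < B := by
    rw [Filter.eventually_all_finset]
    intro l _
    exact eventually_gt_atTop _
  have evB2 : ∀ᶠ B : ℝ in atTop, ∀ p ∈ Vf Γ k, ∀ l ∈ Γ,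
      (l.1 * (p.1 + C) - l.2 + C * l.1 - p.2) / 2 < B := by
    rw [Filter.eventually_all_finset]
    intro p _
    rw [Filter.eventually_all_finset]
    intro l _
    exact eventually_gt_atTop _
  obtain ⟨B, hB1, hB2⟩ := (evB1.and evB2).exists
  have evD : ∀ᶠ D : ℝ in atTop, ∀ p ∈ Vf Γ k, p.2 + B < D := by
    rw [Filter.eventually_all_finset]
    intro p _
    exact eventually_gt_atTop _
  obtain ⟨D, hD, hD0⟩ := (evD.and (eventually_gt_atTop (0 : ℝ))).exists
  set g : ℝ × ℝ → ℝ × ℝ := fun l => (l.1, -l.2) with hg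
  have hginj : Function.Injective g := by
    intro l m h
    rw [hg, Prod.mk.injEq] at h
    exact Prod.ext h.1 (neg_injective h.2)
  set Γ₁ := Γ.image (am 0 B C) with hΓ₁
  set Γ₂ := Γ₁.image g with hΓ₂
  set Γ₃ := (range n).image (fun i : ℕ => ((D + (i : ℝ), (0 : ℝ)) : ℝ × ℝ)) with hΓ₃
  have hc1 : Γ₁.card = n := by rw [hΓ₁, card_image_of_injective _ (am_inj 0 B C), hn]
  have hc2 : Γ₂.card = n := by rw [hΓ₂, card_image_of_injective _ hginj, hc1]
  have hc3 : Γ₃.card = n := by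
    rw [hΓ₃, card_image_of_injective, card_range]
    intro i j h
    have h2 : D + (i : ℝ) = D + (j : ℝ) := congrArg Prod.fst h
    have h3 : (i : ℝ) = j := by linarith
    exact_mod_cast h3
  have hpos : ∀ l ∈ Γ₁, 0 < l.2 := by
    intro l hl
    obtain ⟨m, hm, rfl⟩ := mem_image.1 hl
    have := hB1 m hm
    show 0 < m.2 + B - C * (m.1 + 0)
    linarith
  have hneg : ∀ l ∈ Γ₂, l.2 < 0 := by
    intro l hl
    obtain ⟨m, hm, rfl⟩ := mem_image.1 hl
    have := hpos m hm
    show -m.2 < 0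
    linarith
  have hzero : ∀ l ∈ Γ₃, l.2 = 0 := by
    intro l hl
    obtain ⟨i, -, rfl⟩ := mem_image.1 hl
    rfl
  have hd : Disjoint Γ₁ Γ₂ := by
    rw [Finset.disjoint_left]
    intro l hl hl2
    linarith [hpos l hl, hneg l hl2]
  have hd13 : Disjoint Γ₁ Γ₃ := by
    rw [Finset.disjoint_left]
    intro l hl hl2
    linarith [hpos l hl, hzero l hl2]
  have hd23 : Disjoint Γ₂ Γ₃ := by
    rw [Finset.disjoint_left]
    intro l hl hl2
    linarith [hneg l hl, hzero l hl2]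
  have hemb := embed (Γ := Γ) (k := k) 0 B C (Γ₂ := Γ₂) (Γ₃ := Γ₃) hd hd13 hd23 (by
      intro p hp l hl
      obtain ⟨m, hm, rfl⟩ := mem_image.1 hl
      obtain ⟨j, hj, rfl⟩ := mem_image.1 hm
      have h1 := hB2 p (mem_Vf.2 hp) j hj
      simp only [hg, height, am]
      linarith) (by
      intro p hp l hl
      obtain ⟨i, -, rfl⟩ := mem_image.1 hl
      have h1 := hD p (mem_Vf.2 hp)
      have h2 : (0 : ℝ) ≤ i := Nat.cast_nonneg i
      have h3 := hC p (mem_Vf.2 hp)
      simp only [height]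
      have h4 : (D + (i : ℝ)) * 1 ≤ (D + (i : ℝ)) * (p.1 + C) :=
        mul_le_mul_of_nonneg_left (by linarith) (by linarith)
      linarith)
  rw [hc, hc2, Nat.add_comm k n] at hemb
  refine ⟨Γ₁ ∪ Γ₂ ∪ Γ₃, ?_, ?_, hemb⟩
  · rw [card_union_of_disjoint (disjoint_union_left.2 ⟨hd13, hd23⟩), card_union_of_disjoint hd, hc1,
      hc2, hc3]
    omega
  · intro l hl
    rw [mem_union, mem_union] at hl ⊢
    rcases hl with (hl | hl) | hl
    · exact Or.inl (Or.inr (mem_image_of_mem g hl))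
    · obtain ⟨m, hm, rfl⟩ := mem_image.1 hl
      left; left
      have : (((g m).1, -(g m).2) : ℝ × ℝ) = m := by
        simp only [hg, neg_neg]
      rw [this]
      exact hm
    · right
      have h1 := hzero l hl
      have : ((l.1, -l.2) : ℝ × ℝ) = l := by
        apply Prod.ext
        · rfl
        · simp only [h1, neg_zero]
      rw [this]
      exact hl

end Pool.Agent.U272.AS
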