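import Pool.Agent.U272.AS.Total
import Pool.Agent.U272.PS.Lower

/-!
# Bisectors and `k`-lines of almost centrally symmetric point sets
-/

set_option autoImplicit false

namespace Pool.Agent.U272.AS

open Finset Pool.Agent.TH124.KE Pool.Agent.R117.KR

/-- a shear -/
def shr (s : ℝ) (p : ℝ × ℝ) : ℝ × ℝ := (p.1 + s * p.2, p.2)

lemma shr_inj (s : ℝ) : Function.Injective (shr s) := by
  intro p q h
  unfold shr at h
  rw [Prod.mk.injEq] at h
  obtain ⟨h1, h2⟩ := h
  rw [h2] at h1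
  exact Prod.ext (by linarith) h2

lemma shr_sub (s : ℝ) (o p : ℝ × ℝ) : shr s (o + o - p) = shr s o + shr s o - shr s p := by
  unfold shr
  apply Prod.ext
  · simp only [Prod.fst_sub, Prod.fst_add, Prod.snd_sub, Prod.snd_add]
    ring
  · simp only [Prod.snd_sub, Prod.snd_add]

/-- the height of a sheared point -/
lemma hh_shr {s a b : ℝ} (hB : b - a * s ≠ 0) (p : ℝ × ℝ) :
    hh (-a / (b - a * s)) (shr s p) = (a * p.1 + b * p.2) / (b - a * s) := by
  unfold hh shr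
  field_simp
  ring

/-- the core of an almost symmetric set -/
lemma core {P R : Finset (ℝ × ℝ)} {o : ℝ × ℝ} (hR : ∀ p ∈ R, o + o - p ∈ R) {t : ℕ}
    (ht : (P \ R).card + (R \ P).card ≤ t) :
    ∃ R₀ ⊆ P, (∀ p ∈ R₀, o + o - p ∈ R₀) ∧ (P \ R₀).card ≤ t := by
  classical
  refine ⟨P.filter (fun p => p ∈ R ∧ o + o - p ∈ P), filter_subset _ _, ?_, ?_⟩
  · intro p hp
    rw [mem_filter] at hp ⊢
    exact ⟨hp.2.2, hR p hp.2.1, by rw [neg_neg']; exact hp.1⟩
  · have h1 : P \ P.filter (fun p => p ∈ R ∧ o + o - p ∈ P) ⊆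
        (P \ R) ∪ (R \ P).image (fun p => o + o - p) := by
      intro p hp
      rw [mem_sdiff, mem_filter] at hp
      rw [mem_union, mem_sdiff, mem_image]
      by_cases h : p ∈ R
      · right
        refine ⟨o + o - p, ?_, neg_neg' o p⟩
        rw [mem_sdiff]
        exact ⟨hR p h, fun h' => hp.2 ⟨hp.1, h, h'⟩⟩
      · exact Or.inl ⟨hp.1, h⟩
    have h2 := (card_le_card h1).trans ((card_union_le _ _).trans
      (Nat.add_le_add_left card_image_le _))
    exact h2.trans (by convert ht)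

section shear

variable {P : Finset (ℝ × ℝ)} {s : ℝ}

lemma gp_shr (hP : KLev.Halving.GeneralPosition P)
    (hs : ∀ p ∈ P, ∀ q ∈ P, p ≠ q → (p.1 - q.1) + s * (p.2 - q.2) ≠ 0) :
    GP (P.image (shr s)) := by
  constructor
  · intro p' hp' q' hq' h
    obtain ⟨p, hp, rfl⟩ := mem_image.1 hp'
    obtain ⟨q, hq, rfl⟩ := mem_image.1 hq'
    by_contra hne
    apply hs p hp q hq (fun h' => hne (by rw [h']))
    have : p.1 + s * p.2 = q.1 + s * q.2 := h
    linarith
  · intro p' hp' q' hq' r' hr' hpq hpr hqr h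
    obtain ⟨p, hp, rfl⟩ := mem_image.1 hp'
    obtain ⟨q, hq, rfl⟩ := mem_image.1 hq'
    obtain ⟨r, hr, rfl⟩ := mem_image.1 hr'
    have hpq' : p ≠ q := fun h' => hpq (by rw [h'])
    have hpr' : p ≠ r := fun h' => hpr (by rw [h'])
    have hqr' : q ≠ r := fun h' => hqr (by rw [h'])
    have h1 : (shr s p).1 ≠ (shr s q).1 := by
      intro h'
      apply hs p hp q hq hpq'
      have : p.1 + s * p.2 = q.1 + s * q.2 := h'
      linarith
    have h2 : (shr s p).1 ≠ (shr s r).1 := by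
      intro h'
      apply hs p hp r hr hpr'
      have : p.1 + s * p.2 = r.1 + s * r.2 := h'
      linarith
    set σ := sl (shr s p) (shr s q) with hσ
    have e1 := hh_sl h1
    have e2 := hh_sl h2
    rw [← h] at e2
    rw [← hσ] at e1
    unfold hh shr at e1 e2
    simp only at e1 e2
    refine hP (-σ) (1 - σ * s) (p.2 - σ * (p.1 + s * p.2)) ?_ p hp q hq r hr hpq' hpr' hqr'
      ⟨?_, ?_, ?_⟩
    · by_contra hc
      push Not at hc
      have h3 : σ = 0 := by linarith [hc.1]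
      rw [h3] at hc
      have := hc.2
      norm_num at this
    · simp only [KLev.Halving.Line, Set.mem_ofPred_eq]
      ring
    · simp only [KLev.Halving.Line, Set.mem_ofPred_eq]
      linarith
    · simp only [KLev.Halving.Line, Set.mem_ofPred_eq]
      linarith

open scoped Classical in
/-- the edge of a line -/
lemma edge_of (hP : KLev.Halving.GeneralPosition P)
    (hs : ∀ p ∈ P, ∀ q ∈ P, p ≠ q → (p.1 - q.1) + s * (p.2 - q.2) ≠ 0) {a b c : ℝ}
    (hab : a ≠ 0 ∨ b ≠ 0) {p q : ℝ × ℝ} (hp : p ∈ P) (hq : q ∈ P) (hpq : p ≠ q)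
    (hpL : p ∈ Line a b c) (hqL : q ∈ Line a b c) :
    ∃ p' q', p' ∈ P ∧ q' ∈ P ∧ p' ≠ q' ∧ p' ∈ Line a b c ∧ q' ∈ Line a b c ∧
      (KE (P.image (shr s)) (P.filter (fun z => a * z.1 + b * z.2 < c)).card (shr s p') (shr s q') ∨
       KE (P.image (shr s)) (P.filter (fun z => c < a * z.1 + b * z.2)).card (shr s p') (shr s q'))
       ∧ (P.filter (fun z => a * z.1 + b * z.2 < c)).card +
        (P.filter (fun z => c < a * z.1 + b * z.2)).card + 2 = P.card := by
  have hB : b - a * s ≠ 0 := Pool.Agent.U272.PS.slope_ne hab (hs p hp q hq hpq) hpL hqL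
  have hG := gp_shr hP hs
  -- order the two points
  obtain ⟨p', q', hp', hq', hpq', hp'L, hq'L, hlt⟩ : ∃ p' q', p' ∈ P ∧ q' ∈ P ∧ p' ≠ q' ∧
      p' ∈ Line a b c ∧ q' ∈ Line a b c ∧ (shr s p').1 < (shr s q').1 := by
    have hne : (shr s p).1 ≠ (shr s q).1 := by
      intro h'
      apply hs p hp q hq hpq
      have : p.1 + s * p.2 = q.1 + s * q.2 := h'
      linarith
    rcases lt_or_gt_of_ne hne with h | h
    · exact ⟨p, q, hp, hq, hpq, hpL, hqL, h⟩
    · exact ⟨q, p, hq, hp, hpq.symm, hqL, hpL, h⟩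
  set σ := -a / (b - a * s) with hσ
  have e1 : a * p'.1 + b * p'.2 = c := hp'L
  have e2 : a * q'.1 + b * q'.2 = c := hq'L
  have hsl : sl (shr s p') (shr s q') = σ := by
    apply (hh_eq hlt.ne σ).1
    rw [hh_shr hB, hh_shr hB, e1, e2]
  have hmp : shr s p' ∈ P.image (shr s) := mem_image_of_mem _ hp'
  have hmq : shr s q' ∈ P.image (shr s) := mem_image_of_mem _ hq'
  have hba := bel_abv hG hmp hmq hlt
  rw [hsl] at hba
  have hcardP : (P.image (shr s)).card = P.card := card_image_of_injective _ (shr_inj s)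
  rw [hcardP] at hba
  have hbel : bel (P.image (shr s)) σ (shr s p') =
      (P.filter (fun z => hh σ (shr s z) < hh σ (shr s p'))).card := by
    unfold bel
    rw [filter_image, card_image_of_injective _ (shr_inj s)]
  have habv : abv (P.image (shr s)) σ (shr s p') =
      (P.filter (fun z => hh σ (shr s p') < hh σ (shr s z))).card := by
    unfold abv
    rw [filter_image, card_image_of_injective _ (shr_inj s)]
  have hcmp1 : ∀ z : ℝ × ℝ, hh σ (shr s z) < hh σ (shr s p') ↔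
      (a * z.1 + b * z.2) / (b - a * s) < c / (b - a * s) := by
    intro z
    rw [hσ, hh_shr hB, hh_shr hB, e1]
  have hcmp2 : ∀ z : ℝ × ℝ, hh σ (shr s p') < hh σ (shr s z) ↔
      c / (b - a * s) < (a * z.1 + b * z.2) / (b - a * s) := by
    intro z
    rw [hσ, hh_shr hB, hh_shr hB, e1]
  rcases lt_or_gt_of_ne hB with hneg | hpos
  · have f1 : P.filter (fun z => hh σ (shr s z) < hh σ (shr s p')) =
        P.filter (fun z => c < a * z.1 + b * z.2) := by
      apply filter_congr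
      intro z _
      rw [hcmp1]
      exact div_lt_div_right_of_neg hneg
    have f2 : P.filter (fun z => hh σ (shr s p') < hh σ (shr s z)) =
        P.filter (fun z => a * z.1 + b * z.2 < c) := by
      apply filter_congr
      intro z _
      rw [hcmp2]
      exact div_lt_div_right_of_neg hneg
    rw [f1] at hbel
    rw [f2] at habv
    refine ⟨p', q', hp', hq', hpq', hp'L, hq'L, Or.inr ⟨hmp, hmq, hlt, ?_⟩, ?_⟩
    · rw [hsl, hbel]
    · omega
  · have f1 : P.filter (fun z => hh σ (shr s z) < hh σ (shr s p')) =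
        P.filter (fun z => a * z.1 + b * z.2 < c) := by
      apply filter_congr
      intro z _
      rw [hcmp1]
      exact div_lt_div_iff_of_pos_right hpos
    have f2 : P.filter (fun z => hh σ (shr s p') < hh σ (shr s z)) =
        P.filter (fun z => c < a * z.1 + b * z.2) := by
      apply filter_congr
      intro z _
      rw [hcmp2]
      exact div_lt_div_iff_of_pos_right hpos
    rw [f1] at hbel
    rw [f2] at habv
    refine ⟨p', q', hp', hq', hpq', hp'L, hq'L, Or.inl ⟨hmp, hmq, hlt, ?_⟩, ?_⟩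
    · rw [hsl, hbel]
    · omega

open scoped Classical in
/-- lines inject into edges -/
lemma lines_le (hP : KLev.Halving.GeneralPosition P)
    (hs : ∀ p ∈ P, ∀ q ∈ P, p ≠ q → (p.1 - q.1) + s * (p.2 - q.2) ≠ 0) (S : Finset (Set (ℝ × ℝ)))
    (K : Finset Seg) (h : ∀ L ∈ S, ∃ a b c : ℝ, (a ≠ 0 ∨ b ≠ 0) ∧ L = Line a b c ∧
      ∃ p ∈ P, ∃ q ∈ P, p ≠ q ∧ p ∈ L ∧ q ∈ L ∧ ((shr s p, shr s q) : Seg) ∈ K) : S.card ≤ K.card := by
  have hch : ∀ L : Set (ℝ × ℝ), ∃ x : (ℝ × ℝ) × (ℝ × ℝ), L ∈ S → x.1 ∈ P ∧ x.2 ∈ P ∧ x.1 ≠ x.2 ∧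
      x.1 ∈ L ∧ x.2 ∈ L ∧ ((shr s x.1, shr s x.2) : Seg) ∈ K := by
    intro L
    by_cases hL : L ∈ S
    · obtain ⟨a, b, c, -, -, p, hp, q, hq, h1⟩ := h L hL
      exact ⟨(p, q), fun _ => ⟨hp, hq, h1⟩⟩
    · exact ⟨((0, 0), (0, 0)), fun h => absurd h hL⟩
  choose x hx using hch
  apply card_le_card_of_injOn (fun L => ((shr s (x L).1, shr s (x L).2) : Seg))
  · intro L hL
    exact (hx L hL).2.2.2.2.2
  · intro L hL L' hL' he
    rw [Prod.mk.injEq] at he
    have e1 := shr_inj s he.1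
    have e2 := shr_inj s he.2
    obtain ⟨a, b, c, hab, rfl, -⟩ := h L hL
    obtain ⟨a', b', c', hab', rfl, -⟩ := h L' hL'
    obtain ⟨-, -, h1, h2, h3, -⟩ := hx _ hL
    obtain ⟨-, -, -, h2', h3', -⟩ := hx _ hL'
    rw [← e1] at h2'
    rw [← e2] at h3'
    exact line_unique hab hab' h1 h2 h3 h2' h3'

end shear

lemma image_sdiff_card {P R : Finset (ℝ × ℝ)} (s : ℝ) (hRP : R ⊆ P) {t : ℕ} (h : (P \ R).card ≤ t) :
    (P.image (shr s) \ R.image (shr s)).card ≤ t := by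
  classical
  refine le_trans (le_of_eq ?_) h
  rw [← image_sdiff _ _ (shr_inj s), card_image_of_injective _ (shr_inj s)]

/-- the bound for the edges of a sheared set -/
lemma kes_shr {P R : Finset (ℝ × ℝ)} {o : ℝ × ℝ} (hP : KLev.Halving.GeneralPosition P) {s : ℝ}
    (hs : ∀ p ∈ P, ∀ q ∈ P, p ≠ q → (p.1 - q.1) + s * (p.2 - q.2) ≠ 0) (hRP : R ⊆ P)
    (hR : ∀ p ∈ R, o + o - p ∈ R) {t k d : ℕ} (ht : (P \ R).card ≤ t)
    (h1 : P.card ≤ 2 * k + 2 + d) (h2 : 2 * k + 2 ≤ P.card + d) :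
    ((kes (P.image (shr s)) k).card : ℝ) ≤ 500 * (P.card + t) * ((d : ℝ) + t + 1) ^ (1 / 3 : ℝ) := by
  classical
  have hc : (P.image (shr s)).card = P.card := card_image_of_injective _ (shr_inj s)
  have h := kes_final (P := P.image (shr s)) (R := R.image (shr s)) (o := shr s o) (t := t) (k := k)
    (d := d) (gp_shr hP hs) (image_subset_image hRP) (by
      intro p hp
      obtain ⟨q, hq, rfl⟩ := mem_image.1 hp
      rw [← shr_sub]
      exact mem_image_of_mem _ (hR q hq)) (image_sdiff_card s hRP ht) (by rw [hc]; exact h1)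
      (by rw [hc]; exact h2)
  rw [hc] at h
  exact h

open scoped Classical in
/-- **Bisectors of almost centrally symmetric sets.** -/
theorem bisectors_le {P R : Finset (ℝ × ℝ)} {o : ℝ × ℝ} (hP : KLev.Halving.GeneralPosition P)
    (hR : ∀ p ∈ R, o + o - p ∈ R) {t : ℕ} (ht : (P \ R).card + (R \ P).card ≤ t) :
    ({L | IsBisector P L}.ncard : ℝ) ≤ 500 * (P.card + t) * ((t : ℝ) + 1) ^ (1 / 3 : ℝ) := by
  obtain ⟨R₀, hR₀P, hR₀, hR₀t⟩ := core hR ht
  obtain ⟨s, hs⟩ := Pool.Agent.U272.PS.exists_s P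
  by_cases hfin : {L | IsBisector P L}.Finite
  swap
  · rw [Set.Infinite.ncard hfin, Nat.cast_zero]
    positivity
  rw [Set.ncard_eq_toFinset_card _ hfin]
  set S := hfin.toFinset with hSdef
  have hmem : ∀ L, L ∈ S → IsBisector P L := fun L hL => by
    rw [hSdef, Set.Finite.mem_toFinset] at hL
    exact hL
  rcases S.eq_empty_or_nonempty with h0 | ⟨L₀, hL₀⟩
  · rw [h0, card_empty, Nat.cast_zero]
    positivity
  have hed : ∀ L ∈ S, ∃ a b c : ℝ, (a ≠ 0 ∨ b ≠ 0) ∧ L = Line a b c ∧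
      (∃ p ∈ P, ∃ q ∈ P, p ≠ q ∧ p ∈ L ∧ q ∈ L ∧
        ((shr s p, shr s q) : Seg) ∈ kes (P.image (shr s)) (P.card / 2 - 1)) ∧
      (P.card / 2 - 1) + (P.card / 2 - 1) + 2 = P.card := by
    intro L hL
    obtain ⟨a, b, c, hab, rfl, ⟨p, hp, q, hq, hpq, hpL, hqL⟩, e1, e2⟩ := hmem L hL
    obtain ⟨p', q', hp', hq', hpq', hp'L, hq'L, h1, h2⟩ := edge_of hP hs hab hp hq hpq hpL hqL
    rw [e1, e2] at h1 h2
    refine ⟨a, b, c, hab, rfl, ⟨p', hp', q', hq', hpq', hp'L, hq'L, ?_⟩, h2⟩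
    rw [mem_kes]
    exact h1.elim id id
  have h1 : S.card ≤ (kes (P.image (shr s)) (P.card / 2 - 1)).card := by
    apply lines_le hP hs
    intro L hL
    obtain ⟨a, b, c, hab, hLe, h2, -⟩ := hed L hL
    exact ⟨a, b, c, hab, hLe, h2⟩
  obtain ⟨-, -, -, -, -, -, h2⟩ := hed L₀ hL₀
  have h3 := kes_shr (d := 0) hP hs hR₀P hR₀ hR₀t (k := P.card / 2 - 1) (by omega) (by omega)
  rw [Nat.cast_zero, zero_add] at h3
  have h4 : (S.card : ℝ) ≤ (kes (P.image (shr s)) (P.card / 2 - 1)).card := by exact_mod_cast h1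
  exact h4.trans h3

open scoped Classical in
/-- **`k`-lines of almost centrally symmetric sets.** -/
theorem klines_le {P R : Finset (ℝ × ℝ)} {o : ℝ × ℝ} (hP : KLev.Halving.GeneralPosition P)
    (hR : ∀ p ∈ R, o + o - p ∈ R) {t : ℕ} (ht : (P \ R).card + (R \ P).card ≤ t) {k d : ℕ}
    (hk1 : P.card ≤ 2 * k + 2 + d) (hk2 : 2 * k + 2 ≤ P.card + d) :
    ({L | IsKLine P k L}.ncard : ℝ) ≤ 1000 * (P.card + t) * ((d : ℝ) + t + 1) ^ (1 / 3 : ℝ) := by
  obtain ⟨R₀, hR₀P, hR₀, hR₀t⟩ := core hR ht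
  obtain ⟨s, hs⟩ := Pool.Agent.U272.PS.exists_s P
  by_cases hfin : {L | IsKLine P k L}.Finite
  swap
  · rw [Set.Infinite.ncard hfin, Nat.cast_zero]
    positivity
  rw [Set.ncard_eq_toFinset_card _ hfin]
  set S := hfin.toFinset with hSdef
  have hmem : ∀ L, L ∈ S → IsKLine P k L := fun L hL => by
    rw [hSdef, Set.Finite.mem_toFinset] at hL
    exact hL
  rcases S.eq_empty_or_nonempty with h0 | ⟨L₀, hL₀⟩
  · rw [h0, card_empty, Nat.cast_zero]
    positivity
  have hed : ∀ L ∈ S, ∃ a b c : ℝ, (a ≠ 0 ∨ b ≠ 0) ∧ L = Line a b c ∧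
      (∃ p ∈ P, ∃ q ∈ P, p ≠ q ∧ p ∈ L ∧ q ∈ L ∧
        ((shr s p, shr s q) : Seg) ∈ kes (P.image (shr s)) k ∪
          kes (P.image (shr s)) (P.card - 2 - k)) ∧ k + 2 ≤ P.card := by
    intro L hL
    obtain ⟨a, b, c, hab, rfl, ⟨p, hp, q, hq, hpq, hpL, hqL⟩, e1⟩ := hmem L hL
    obtain ⟨p', q', hp', hq', hpq', hp'L, hq'L, h1, h2⟩ := edge_of hP hs hab hp hq hpq hpL hqL
    refine ⟨a, b, c, hab, rfl, ⟨p', hp', q', hq', hpq', hp'L, hq'L, ?_⟩, by omega⟩
    rw [mem_union, mem_kes, mem_kes]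
    rcases h1 with h1 | h1
    · right
      have : (P.filter (fun z => a * z.1 + b * z.2 < c)).card = P.card - 2 - k := by omega
      rw [this] at h1
      exact h1
    · left
      rw [e1] at h1
      exact h1
  have h1 : S.card ≤ (kes (P.image (shr s)) k ∪ kes (P.image (shr s)) (P.card - 2 - k)).card := by
    apply lines_le hP hs
    intro L hL
    obtain ⟨a, b, c, hab, hLe, h2, -⟩ := hed L hL
    exact ⟨a, b, c, hab, hLe, h2⟩
  obtain ⟨-, -, -, -, -, -, h2⟩ := hed L₀ hL₀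
  have h3 := kes_shr hP hs hR₀P hR₀ hR₀t hk1 hk2
  have h4 := kes_shr (k := P.card - 2 - k) (d := d) hP hs hR₀P hR₀ hR₀t (by omega) (by omega)
  have h5 : (S.card : ℝ) ≤ (kes (P.image (shr s)) k).card +
      (kes (P.image (shr s)) (P.card - 2 - k)).card := by
    exact_mod_cast h1.trans (card_union_le _ _)
  linarith

end Pool.Agent.U272.AS
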