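import Pool.Agent.TH124.KE.Total
import Pool.Agent.U272.PS.Near

/-!
# Symmetric point sets: crossings on the way down
-/

set_option autoImplicit false

namespace Pool.Agent.U272.AS

open Finset Pool.Agent.TH124.KE Filter Topology

/-- signed height of `p` over the line of slope `σ` through `o` -/
def H (o : ℝ × ℝ) (σ : ℝ) (p : ℝ × ℝ) : ℝ := hh σ p - hh σ o

/-- its absolute value -/
noncomputable def V (o : ℝ × ℝ) (σ : ℝ) (p : ℝ × ℝ) : ℝ := |H o σ p|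

/-- the number of points in an open strip about `o` -/
noncomputable def N (R : Finset (ℝ × ℝ)) (o : ℝ × ℝ) (σ r : ℝ) : ℕ := #{w ∈ R | V o σ w < r}

lemma H_neg (o : ℝ × ℝ) (σ : ℝ) (p : ℝ × ℝ) : H o σ (o + o - p) = - H o σ p := by
  unfold H hh
  simp only [Prod.fst_sub, Prod.snd_sub, Prod.fst_add, Prod.snd_add]
  ring

lemma V_neg (o : ℝ × ℝ) (σ : ℝ) (p : ℝ × ℝ) : V o σ (o + o - p) = V o σ p := by
  unfold V
  rw [H_neg, abs_neg]

lemma V_nonneg (o : ℝ × ℝ) (σ : ℝ) (p : ℝ × ℝ) : 0 ≤ V o σ p := abs_nonneg _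

lemma H_cont (o : ℝ × ℝ) (p : ℝ × ℝ) : Continuous (fun σ => H o σ p) := by
  unfold H hh
  fun_prop

lemma V_cont (o : ℝ × ℝ) (p : ℝ × ℝ) : Continuous (fun σ => V o σ p) := (H_cont o p).abs

lemma N_mono {R : Finset (ℝ × ℝ)} {o : ℝ × ℝ} {σ r r' : ℝ} (h : r ≤ r') :
    N R o σ r ≤ N R o σ r' := by
  unfold N
  apply card_le_card
  intro w hw
  rw [mem_filter] at hw ⊢
  exact ⟨hw.1, lt_of_lt_of_le hw.2 h⟩

lemma N_zero (R : Finset (ℝ × ℝ)) (o : ℝ × ℝ) (σ : ℝ) : N R o σ 0 = 0 := by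
  unfold N
  rw [card_eq_zero]
  apply filter_false_of_mem
  intro w _ h
  exact absurd h (not_lt.2 (V_nonneg o σ w))

lemma neg_neg' (o p : ℝ × ℝ) : o + o - (o + o - p) = p := sub_sub_cancel _ _

theorem cross_step {R : Finset (ℝ × ℝ)} {o : ℝ × ℝ} (hR : ∀ p ∈ R, o + o - p ∈ R) {p : ℝ × ℝ}
    {M J : ℕ} (hJM : J ≤ M) {σ₀ σ₁ : ℝ} (h01 : σ₀ ≤ σ₁)
    (h0 : M < N R o σ₀ (V o σ₀ p)) (h1 : N R o σ₁ (V o σ₁ p) ≤ J) :
    ∃ W ⊆ R, M + 1 ≤ #W + J ∧ p ∉ W ∧ o + o - p ∉ W ∧ (∀ w ∈ W, o + o - w ∈ W) ∧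
      ∀ w ∈ W, ∃ ζ, σ₀ < ζ ∧ ζ ≤ σ₁ ∧ V o ζ w = V o ζ p ∧ N R o ζ (V o ζ p) ≤ M := by
  classical
  set Z : Set ℝ := {σ | σ ∈ Set.Icc σ₀ σ₁ ∧ M < N R o σ (V o σ p)} with hZ
  have hZne : Z.Nonempty := ⟨σ₀, ⟨le_rfl, h01⟩, h0⟩
  have hZb : BddAbove Z := ⟨σ₁, fun σ hσ => hσ.1.2⟩
  set s := sSup Z with hs
  have hs1 : s ≤ σ₁ := csSup_le hZne fun σ hσ => hσ.1.2
  have hs0 : σ₀ ≤ s := le_csSup hZb ⟨⟨le_rfl, h01⟩, h0⟩
  -- (b)
  have hb : ∀ σ, s < σ → σ ≤ σ₁ → N R o σ (V o σ p) ≤ M := by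
    intro σ h2 h3
    by_contra h4
    push Not at h4
    exact absurd (le_csSup hZb ⟨⟨hs0.trans h2.le, h3⟩, h4⟩) (not_le.2 h2)
  -- (a)
  have ha : N R o s (V o s p) ≤ M := by
    rcases eq_or_lt_of_le hs1 with h2 | h2
    · rw [h2]
      exact h1.trans hJM
    · by_contra h3
      push Not at h3
      have hev : ∀ᶠ σ in 𝓝 s, ∀ w ∈ R.filter (fun w => V o s w < V o s p), V o σ w < V o σ p := by
        rw [Filter.eventually_all_finset]
        intro w hw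
        exact (isOpen_lt (V_cont o w) (V_cont o p)).mem_nhds (mem_filter.1 hw).2
      have hev2 : ∀ᶠ σ in 𝓝[>] s, ∀ w ∈ R.filter (fun w => V o s w < V o s p), V o σ w < V o σ p :=
        hev.filter_mono nhdsWithin_le_nhds
      have hev3 : ∀ᶠ σ in 𝓝[>] s, σ ∈ Set.Ioo s σ₁ := Ioo_mem_nhdsGT h2
      obtain ⟨σ, h4, h5⟩ := (hev2.and hev3).exists
      have h6 := hb σ h5.1 h5.2.le
      have h7 : N R o s (V o s p) ≤ N R o σ (V o σ p) := by
        unfold N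
        apply card_le_card
        intro w hw
        exact mem_filter.2 ⟨(mem_filter.1 hw).1, h4 w hw⟩
      omega
  have hlt : σ₀ < s := by
    rcases eq_or_lt_of_le hs0 with h2 | h2
    · rw [← h2] at ha
      omega
    · exact h2
  -- (c)
  set F : Finset (Finset (ℝ × ℝ)) := R.powerset.filter (fun W => M + 1 ≤ #W ∧ p ∉ W ∧
    o + o - p ∉ W ∧ ∀ w ∈ W, o + o - w ∈ W) with hF
  set C : Set ℝ := ⋃ W ∈ F, {σ | ∀ w ∈ W, V o σ w ≤ V o σ p} with hC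
  have hCcl : IsClosed C := by
    rw [hC]
    apply Set.Finite.isClosed_biUnion F.finite_toSet
    intro W _
    have : {σ : ℝ | ∀ w ∈ W, V o σ w ≤ V o σ p} = ⋂ w ∈ W, {σ | V o σ w ≤ V o σ p} := by
      ext σ
      simp
    rw [this]
    exact isClosed_biInter fun w _ => isClosed_le (V_cont o w) (V_cont o p)
  have hZC : Z ⊆ C := by
    intro σ hσ
    rw [hC, Set.mem_iUnion₂]
    refine ⟨R.filter (fun w => V o σ w < V o σ p), ?_, ?_⟩
    · rw [hF, mem_filter, mem_powerset]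
      refine ⟨filter_subset _ _, hσ.2, ?_, ?_, ?_⟩
      · intro h
        exact lt_irrefl _ (mem_filter.1 h).2
      · intro h
        have := (mem_filter.1 h).2
        rw [V_neg] at this
        exact lt_irrefl _ this
      · intro w hw
        rw [mem_filter] at hw ⊢
        exact ⟨hR w hw.1, by rw [V_neg]; exact hw.2⟩
    · intro w hw
      exact (mem_filter.1 hw).2.le
  have hsC : s ∈ C := hCcl.closure_subset_iff.2 hZC (csSup_mem_closure hZne hZb)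
  rw [hC, Set.mem_iUnion₂] at hsC
  obtain ⟨W, hW, hsW⟩ := hsC
  rw [hF, mem_filter, mem_powerset] at hW
  obtain ⟨hWR, hWc, hWp, hWp', hWs⟩ := hW
  -- (d)
  refine ⟨W.filter (fun w => V o σ₁ p ≤ V o σ₁ w), (filter_subset _ _).trans hWR, ?_, ?_, ?_, ?_, ?_⟩
  · have h2 : #W ≤ #(W.filter (fun w => V o σ₁ p ≤ V o σ₁ w)) + #(R.filter (fun w => V o σ₁ w < V o σ₁ p)) := by
      refine (card_le_card (t := W.filter (fun w => V o σ₁ p ≤ V o σ₁ w) ∪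
        R.filter (fun w => V o σ₁ w < V o σ₁ p)) ?_).trans (card_union_le _ _)
      intro w hw
      rw [mem_union, mem_filter, mem_filter]
      rcases le_or_gt (V o σ₁ p) (V o σ₁ w) with h | h
      · exact Or.inl ⟨hw, h⟩
      · exact Or.inr ⟨hWR hw, h⟩
    have h3 : #(R.filter (fun w => V o σ₁ w < V o σ₁ p)) ≤ J := h1
    omega
  · intro h
    exact hWp (mem_filter.1 h).1
  · intro h
    exact hWp' (mem_filter.1 h).1
  · intro w hw
    rw [mem_filter] at hw ⊢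
    exact ⟨hWs w hw.1, by rw [V_neg]; exact hw.2⟩
  · intro w hw
    rw [mem_filter] at hw
    have h2 : V o s w - V o s p ≤ 0 := sub_nonpos.2 (hsW w hw.1)
    have h3 : 0 ≤ V o σ₁ w - V o σ₁ p := sub_nonneg.2 hw.2
    have hcont : ContinuousOn (fun σ => V o σ w - V o σ p) (Set.Icc s σ₁) :=
      ((V_cont o w).sub (V_cont o p)).continuousOn
    obtain ⟨ζ, hζ, hζ2⟩ := intermediate_value_Icc hs1 hcont ⟨h2, h3⟩
    refine ⟨ζ, lt_of_lt_of_le hlt hζ.1, hζ.2, sub_eq_zero.1 hζ2, ?_⟩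
    rcases eq_or_lt_of_le hζ.1 with h4 | h4
    · rw [← h4]
      exact ha
    · exact hb ζ h4 hζ.2

/-- the events -/
def Ev (R : Finset (ℝ × ℝ)) (o : ℝ × ℝ) (M : ℕ) (p q : ℝ × ℝ) : Prop :=
  p ≠ q ∧ q ≠ o + o - p ∧ N R o (sl p q) (V o (sl p q) p) ≤ M

open scoped Classical in
theorem events_ge {R : Finset (ℝ × ℝ)} {o : ℝ × ℝ} (hG : GP R) (hR : ∀ p ∈ R, o + o - p ∈ R)
    {p : ℝ × ℝ} (hp : p ∈ R) {M J : ℕ} (hJM : J ≤ M) {σ₀ σ₁ : ℝ} (h01 : σ₀ ≤ σ₁)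
    (h0 : M < N R o σ₀ (V o σ₀ p)) (h1 : N R o σ₁ (V o σ₁ p) ≤ J) :
    M + 1 ≤ 2 * #(R.filter (fun q => Ev R o M p q ∧ σ₀ < sl p q ∧ sl p q ≤ σ₁)) + J := by
  obtain ⟨W, hWR, hWc, hWp, hWp', hWs, hWζ⟩ := cross_step hR hJM h01 h0 h1
  set A := R.filter (fun q => Ev R o M p q ∧ σ₀ < sl p q ∧ sl p q ≤ σ₁) with hA
  have key : ∀ w ∈ W, ∀ ζ, σ₀ < ζ → ζ ≤ σ₁ → H o ζ w = H o ζ p → N R o ζ (V o ζ p) ≤ M → w ∈ A := by
    intro w hw ζ h2 h3 h4 h5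
    have hwp : w ≠ p := fun h => hWp (h ▸ hw)
    have hne : p.1 ≠ w.1 := hG.ne1 hp (hWR hw) hwp.symm
    have h6 : hh ζ w = hh ζ p := by
      unfold H at h4
      linarith
    have h7 : sl p w = ζ := (hh_eq hne ζ).1 h6
    rw [hA, mem_filter]
    refine ⟨hWR hw, ⟨hwp.symm, ?_, ?_⟩, ?_, ?_⟩
    · intro h
      exact hWp' (h ▸ hw)
    · rw [h7]
      exact h5
    · rw [h7]
      exact h2
    · rw [h7]
      exact h3
  have hsub : W ⊆ A ∪ A.image (fun w => o + o - w) := by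
    intro w hw
    obtain ⟨ζ, h2, h3, h4, h5⟩ := hWζ w hw
    rw [mem_union, mem_image]
    unfold V at h4
    rcases abs_eq_abs.1 h4 with h6 | h6
    · exact Or.inl (key w hw ζ h2 h3 h6 h5)
    · right
      refine ⟨o + o - w, key _ (hWs w hw) ζ h2 h3 ?_ h5, neg_neg' o w⟩
      rw [H_neg, h6, neg_neg]
  have h2 := (card_le_card hsub).trans ((card_union_le _ _).trans
    (Nat.add_le_add_left card_image_le _))
  omega

end Pool.Agent.U272.AS
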