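import Pool.Agent.KLev.Levels

/-!
# Families of lines with a symmetry that contain a given family
-/

set_option autoImplicit false

namespace Pool.Agent.U272.AS

open Finset Filter Topology KLev.Levels

/-- the action of an affine map on lines -/
def am (A B C : ℝ) (l : ℝ × ℝ) : ℝ × ℝ := (l.1 + A, l.2 + B - C * (l.1 + A))

/-- the action on points -/
def ap (A B C : ℝ) (p : ℝ × ℝ) : ℝ × ℝ := (p.1 + C, p.2 + A * p.1 + B)

lemma height_am (A B C : ℝ) (l : ℝ × ℝ) (x : ℝ) :
    height (am A B C l) (x + C) = height l x + A * x + B := by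
  unfold height am
  ring

lemma am_inj (A B C : ℝ) : Function.Injective (am A B C) := by
  intro l m h
  unfold am at h
  rw [Prod.mk.injEq] at h
  have h1 : l.1 = m.1 := by linarith [h.1]
  refine Prod.ext h1 ?_
  rw [h1] at h
  linarith [h.2]

lemma ap_inj (A B C : ℝ) : Function.Injective (ap A B C) := by
  intro l m h
  unfold ap at h
  rw [Prod.mk.injEq] at h
  have h1 : l.1 = m.1 := by linarith [h.1]
  refine Prod.ext h1 ?_
  rw [h1] at h
  linarith [h.2]

open scoped Classical in
lemma level_image (Γ : Finset (ℝ × ℝ)) (A B C : ℝ) (p : ℝ × ℝ) :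
    level (Γ.image (am A B C)) (ap A B C p) = level Γ p := by
  unfold level
  rw [filter_image, card_image_of_injective _ (am_inj A B C)]
  congr 1
  apply filter_congr
  intro l _
  have : height (am A B C l) (ap A B C p).1 = height l p.1 + A * p.1 + B := height_am A B C l p.1
  rw [this]
  unfold ap
  simp only
  constructor <;> intro h <;> linarith

open scoped Classical in
lemma kLevel_image {Γ : Finset (ℝ × ℝ)} {k : ℕ} (A B C : ℝ) {p : ℝ × ℝ} (hp : p ∈ kLevel Γ k) :
    ap A B C p ∈ kLevel (Γ.image (am A B C)) k := by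
  unfold kLevel at hp ⊢
  have hc : Continuous (ap A B C) := by
    unfold ap
    fun_prop
  have h1 := image_closure_subset_closure_image hc (Set.mem_image_of_mem _ hp)
  refine closure_mono ?_ h1
  rintro _ ⟨q, ⟨⟨l, hl, hlq⟩, hq⟩, rfl⟩
  refine ⟨⟨am A B C l, mem_image_of_mem _ hl, ?_⟩, ?_⟩
  · have : height (am A B C l) (ap A B C q).1 = height l q.1 + A * q.1 + B :=
      height_am A B C l q.1
    rw [this, hlq]
    rfl
  · rw [level_image, hq]

open scoped Classical in
lemma vertex_image {Γ : Finset (ℝ × ℝ)} {k : ℕ} (A B C : ℝ) {p : ℝ × ℝ} (hp : IsVertex Γ k p) :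
    IsVertex (Γ.image (am A B C)) k (ap A B C p) := by
  obtain ⟨l, hl, m, hm, hlm, h1, h2, δ, hδ, h3, h4⟩ := hp
  have hh : ∀ (l : ℝ × ℝ) (x : ℝ), ((x, height (am A B C l) x) : ℝ × ℝ) =
      ap A B C (x - C, height l (x - C)) := by
    intro l x
    have := height_am A B C l (x - C)
    rw [sub_add_cancel] at this
    rw [this]
    unfold ap
    simp only [sub_add_cancel]
  have hpt : ∀ l : ℝ × ℝ, height l p.1 = p.2 →
      height (am A B C l) (ap A B C p).1 = (ap A B C p).2 := by
    intro l hl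
    have : height (am A B C l) (ap A B C p).1 = height l p.1 + A * p.1 + B :=
      height_am A B C l p.1
    rw [this, hl]
    rfl
  refine ⟨am A B C l, mem_image_of_mem _ hl, am A B C m, mem_image_of_mem _ hm,
    fun h => hlm (am_inj A B C h), hpt l h1, hpt m h2, δ, hδ, ?_, ?_⟩
  · intro x hx1 hx2
    have hx1' : p.1 + C - δ < x := hx1
    have hx2' : x < p.1 + C := hx2
    rw [hh]
    exact kLevel_image A B C (h3 (x - C) (by linarith) (by linarith))
  · intro x hx1 hx2
    have hx1' : p.1 + C < x := hx1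
    have hx2' : x < p.1 + C + δ := hx2
    rw [hh]
    exact kLevel_image A B C (h4 (x - C) (by linarith) (by linarith))

/-- a vertex of a subfamily -/
lemma vertex_super {Γ Γ' : Finset (ℝ × ℝ)} (hsub : Γ ⊆ Γ') {k c : ℕ} {p : ℝ × ℝ}
    (hp : IsVertex Γ k p) {U : Set (ℝ × ℝ)} (hU : IsOpen U) (hpU : p ∈ U)
    (hlev : ∀ q ∈ U, level Γ' q = level Γ q + c) : IsVertex Γ' (k + c) p := by
  obtain ⟨l, hl, m, hm, hlm, h1, h2, δ, hδ, h3, h4⟩ := hp
  have key : ∀ q ∈ U, q ∈ kLevel Γ k → q ∈ kLevel Γ' (k + c) := by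
    intro q hq hqk
    unfold kLevel at hqk ⊢
    refine closure_mono ?_ (hU.inter_closure ⟨hq, hqk⟩)
    rintro z ⟨hz, ⟨j, hj, hjz⟩, hzk⟩
    exact ⟨⟨j, hsub hj, hjz⟩, by rw [hlev z hz, hzk]⟩
  have hnear : ∀ l : ℝ × ℝ, height l p.1 = p.2 → ∀ᶠ x in 𝓝 p.1, (x, height l x) ∈ U := by
    intro l hl
    have hc : Continuous (fun x : ℝ => ((x, height l x) : ℝ × ℝ)) := by
      unfold height
      fun_prop
    apply (hc.tendsto p.1).eventually
    have : ((p.1, height l p.1) : ℝ × ℝ) = p := by rw [hl]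
    rw [this]
    exact hU.mem_nhds hpU
  obtain ⟨ε, hε, hball⟩ := Metric.eventually_nhds_iff.1 ((hnear l h1).and (hnear m h2))
  refine ⟨l, hsub hl, m, hsub hm, hlm, h1, h2, min δ ε, lt_min hδ hε, ?_, ?_⟩
  · intro x hx1 hx2
    have hm1 := min_le_left δ ε
    have hm2 := min_le_right δ ε
    refine key _ (hball ?_).1 (h3 x (by linarith) hx2)
    rw [Real.dist_eq, abs_lt]
    constructor <;> linarith
  · intro x hx1 hx2
    have hm1 := min_le_left δ ε
    have hm2 := min_le_right δ ε
    refine key _ (hball ?_).2 (h4 x hx1 (by linarith))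
    rw [Real.dist_eq, abs_lt]
    constructor <;> linarith

open scoped Classical in
/-- adding lines below and above -/
theorem embed {Γ : Finset (ℝ × ℝ)} {k : ℕ} (A B C : ℝ) {Γ₂ Γ₃ : Finset (ℝ × ℝ)}
    (h12 : Disjoint (Γ.image (am A B C)) Γ₂) (h13 : Disjoint (Γ.image (am A B C)) Γ₃)
    (h23 : Disjoint Γ₂ Γ₃)
    (h2 : ∀ p, IsVertex Γ k p → ∀ l ∈ Γ₂, height l (p.1 + C) < p.2 + A * p.1 + B)
    (h3 : ∀ p, IsVertex Γ k p → ∀ l ∈ Γ₃, p.2 + A * p.1 + B < height l (p.1 + C)) :
    complexity Γ k ≤ complexity (Γ.image (am A B C) ∪ Γ₂ ∪ Γ₃) (k + Γ₂.card) := by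
  unfold complexity
  rw [← Set.ncard_image_of_injective {p | IsVertex Γ k p} (ap_inj A B C)]
  apply Set.ncard_le_ncard _ (vertices_finite _ _)
  rintro _ ⟨p, hp, rfl⟩
  set U : Set (ℝ × ℝ) := (⋂ l ∈ Γ₂, {q : ℝ × ℝ | height l q.1 < q.2}) ∩
    ⋂ l ∈ Γ₃, {q : ℝ × ℝ | q.2 < height l q.1} with hU
  have hUo : IsOpen U := by
    apply IsOpen.inter
    · apply isOpen_biInter_finset
      intro l _
      exact isOpen_lt (by unfold height; fun_prop) continuous_snd
    · apply isOpen_biInter_finset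
      intro l _
      exact isOpen_lt continuous_snd (by unfold height; fun_prop)
  refine vertex_super (subset_union_left.trans subset_union_left) (vertex_image A B C hp) hUo ?_ ?_
  · rw [hU, Set.mem_inter_iff, Set.mem_iInter₂, Set.mem_iInter₂]
    exact ⟨fun l hl => h2 p hp l hl, fun l hl => h3 p hp l hl⟩
  · intro q hq
    rw [hU, Set.mem_inter_iff, Set.mem_iInter₂, Set.mem_iInter₂] at hq
    unfold level
    rw [filter_union, filter_union, card_union_of_disjoint, card_union_of_disjoint]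
    · have e1 : Γ₂.filter (fun l => height l q.1 < q.2) = Γ₂ :=
        filter_true_of_mem fun l hl => hq.1 l hl
      have e2 : Γ₃.filter (fun l => height l q.1 < q.2) = ∅ := by
        rw [filter_eq_empty_iff]
        intro l hl h
        have h' : q.2 < height l q.1 := hq.2 l hl
        exact lt_asymm h h'
      rw [e1, e2, card_empty, add_zero]
    · exact (h12.mono (filter_subset _ _) (filter_subset _ _))
    · rw [disjoint_union_left]
      exact ⟨h13.mono (filter_subset _ _) (filter_subset _ _),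
        h23.mono (filter_subset _ _) (filter_subset _ _)⟩

/-- an extremal family -/
lemma exists_ext (k n : ℕ) : ∃ Γ : Finset (ℝ × ℝ), Γ.card = n ∧ complexity Γ k = e k n := by
  have h := Nat.sSup_mem (s := {c : ℕ | ∃ Γ : Finset (ℝ × ℝ), Γ.card = n ∧ complexity Γ k = c}) (by
      refine ⟨_, (range n).image (fun i : ℕ => ((i : ℝ), (0 : ℝ))), ?_, rfl⟩
      rw [card_image_of_injective, card_range]
      intro i j h
      have := congrArg Prod.fst h
      simpa using this) ⟨n * n, by
        rintro c ⟨Δ, hΔ, rfl⟩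
        rw [← hΔ]; exact complexity_le Δ k⟩
  exact h

end Pool.Agent.U272.AS
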