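import Pool.Agent.KLev.Halving

/-!
# Adding points in general position
-/

set_option autoImplicit false

namespace Pool.Agent.U272.AS

open Finset KLev.Halving

lemma quad_finite {a b e : ℝ} (h : a ≠ 0 ∨ b ≠ 0) : {x : ℝ | b * x ^ 2 + a * x + e = 0}.Finite := by
  open Polynomial in
  have hne : (C b * X ^ 2 + C a * X + C e : ℝ[X]) ≠ 0 := by
    intro h0
    have h1 := congrArg (fun p => Polynomial.coeff p 1) h0
    have h2 := congrArg (fun p => Polynomial.coeff p 2) h0
    simp [Polynomial.coeff_X, Polynomial.coeff_C] at h1 h2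
    rcases h with h | h
    · exact h h1
    · exact h h2
  refine ((Polynomial.roots (Polynomial.C b * Polynomial.X ^ 2 + Polynomial.C a * Polynomial.X +
    Polynomial.C e : Polynomial ℝ)).toFinset.finite_toSet).subset ?_
  intro x hx
  rw [Set.mem_ofPred_eq] at hx
  rw [mem_coe, Multiset.mem_toFinset, Polynomial.mem_roots hne]
  simp [Polynomial.IsRoot, hx]

/-- a new point in an open set -/
lemma exists_point {P : Finset (ℝ × ℝ)} (hP : GeneralPosition P) {U : Set (ℝ × ℝ)} (hU : IsOpen U)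
    (hne : U.Nonempty) : ∃ z ∈ U, z ∉ P ∧ GeneralPosition (insert z P) := by
  classical
  obtain ⟨z₀, hz₀⟩ := hne
  set g : ℝ → ℝ × ℝ := fun x => (z₀.1 + x, z₀.2 + x ^ 2) with hg
  have hgc : Continuous g := by
    rw [hg]
    fun_prop
  have h0 : g 0 = z₀ := by
    rw [hg]
    simp
  have hev : ∀ᶠ x in nhds (0 : ℝ), g x ∈ U := by
    apply (hgc.tendsto 0).eventually
    rw [h0]
    exact hU.mem_nhds hz₀
  obtain ⟨δ, hδ, hball⟩ := Metric.eventually_nhds_iff.1 hev
  -- the bad parameters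
  set B : Set ℝ := (⋃ p ∈ P, {x : ℝ | g x = p}) ∪ ⋃ e ∈ (P ×ˢ P).filter (fun e => e.1 ≠ e.2),
    {x : ℝ | g x ∈ Line (e.2.2 - e.1.2) (e.1.1 - e.2.1)
      ((e.2.2 - e.1.2) * e.1.1 + (e.1.1 - e.2.1) * e.1.2)} with hB
  have hBfin : B.Finite := by
    rw [hB]
    apply Set.Finite.union
    · apply Set.Finite.biUnion P.finite_toSet
      intro p _
      apply Set.Subsingleton.finite
      intro x hx y hy
      have h1 : g x = g y := by
        rw [Set.mem_ofPred_eq] at hx hy
        rw [hx, hy]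
      have h2 := congrArg Prod.fst h1
      simp only [hg] at h2
      linarith
    · apply Set.Finite.biUnion (Finset.finite_toSet _)
      intro e he
      rw [mem_coe, mem_filter] at he
      have hab : e.2.2 - e.1.2 ≠ 0 ∨ e.1.1 - e.2.1 ≠ 0 := by
        by_contra h
        push Not at h
        apply he.2
        exact Prod.ext (by linarith [h.2]) (by linarith [h.1])
      refine (quad_finite (e := (e.2.2 - e.1.2) * z₀.1 + (e.1.1 - e.2.1) * z₀.2 -
        ((e.2.2 - e.1.2) * e.1.1 + (e.1.1 - e.2.1) * e.1.2)) hab).subset ?_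
      intro x hx
      simp only [Line, Set.mem_ofPred_eq, hg] at hx ⊢
      linarith
  obtain ⟨x, hx, hxB⟩ := (Set.Ioo_infinite hδ).exists_notMem_finset hBfin.toFinset
  rw [Set.Finite.mem_toFinset] at hxB
  have hxU : g x ∈ U := by
    apply hball
    rw [Real.dist_eq, sub_zero, abs_of_pos hx.1]
    exact hx.2
  rw [hB, Set.mem_union, not_or] at hxB
  obtain ⟨hx1, hx2⟩ := hxB
  have hzP : g x ∉ P := by
    intro h
    apply hx1
    rw [Set.mem_iUnion₂]
    exact ⟨g x, h, rfl⟩
  have hline : ∀ p ∈ P, ∀ q ∈ P, p ≠ q → ∀ a b c : ℝ, (a ≠ 0 ∨ b ≠ 0) → p ∈ Line a b c →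
      q ∈ Line a b c → g x ∉ Line a b c := by
    intro p hp q hq hpq a b c hab hpL hqL hz
    apply hx2
    rw [Set.mem_iUnion₂]
    refine ⟨(p, q), mem_filter.2 ⟨mem_product.2 ⟨hp, hq⟩, hpq⟩, ?_⟩
    rw [Set.mem_ofPred_eq, ← line_eq hab hpq hpL hqL]
    exact hz
  refine ⟨g x, hxU, hzP, ?_⟩
  intro a b c hab p hp q hq r hr hpq hpr hqr h
  rw [mem_insert] at hp hq hr
  rcases hp with rfl | hp
  · rcases hq with hq | hq
    · exact hpq hq.symm
    · rcases hr with hr | hr
      · exact hpr hr.symm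
      · exact hline q hq r hr hqr a b c hab h.2.1 h.2.2 h.1
  · rcases hq with rfl | hq
    · rcases hr with hr | hr
      · exact hqr hr.symm
      · exact hline p hp r hr hpr a b c hab h.1 h.2.2 h.2.1
    · rcases hr with rfl | hr
      · exact hline p hp q hq hpq a b c hab h.1 h.2.1 h.2.2
      · exact hP a b c hab p hp q hq r hr hpq hpr hqr h

/-- `n` new points in an open set -/
theorem exists_points (n : ℕ) {P : Finset (ℝ × ℝ)} (hP : GeneralPosition P) {U : Set (ℝ × ℝ)}
    (hU : IsOpen U) (hne : U.Nonempty) :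
    ∃ P' : Finset (ℝ × ℝ), P ⊆ P' ∧ P'.card = P.card + n ∧ GeneralPosition P' ∧
      ∀ z ∈ P', z ∉ P → z ∈ U := by
  classical
  induction n with
  | zero => exact ⟨P, Subset.rfl, rfl, hP, fun z h h' => absurd h h'⟩
  | succ n ih =>
    obtain ⟨P', h1, h2, h3, h4⟩ := ih
    obtain ⟨z, hz, hzP, hG⟩ := exists_point h3 hU hne
    refine ⟨insert z P', h1.trans (subset_insert _ _), ?_, ?_, ?_⟩
    · rw [card_insert_of_notMem hzP, h2]
      omega
    · convert hG
    · intro w hw hwP
      rw [mem_insert] at hw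
      rcases hw with rfl | hw
      · exact hz
      · exact h4 w hw hwP

end Pool.Agent.U272.AS
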