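import Pool.Agent.U272.AS.Low

/-!
# Many bisectors at distance `n` from a centrally symmetric set: the set
-/

set_option autoImplicit false

namespace Pool.Agent.U272.AS

open Finset Filter Topology KLev.Halving Pool.Agent.U272.PS

open scoped Classical in
theorem far_lower (r n : ℕ) (hr : 1 ≤ r) (hn : Even n) :
    ∃ P R : Finset (ℝ × ℝ), P.card = (2 * r + 1) * n ∧ GeneralPosition P ∧ R ⊆ P ∧
      (P \ R).card = n ∧
      (∀ z : ℂ, pl z ∈ R → pl (Complex.exp (2 * Real.pi * Complex.I / (2 * r : ℕ)) * z) ∈ R) ∧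
      r * f n ≤ {L | IsBisector P L}.ncard := by
  obtain ⟨Q, hQ1, hQ2, hQ3⟩ := exists_max n
  obtain ⟨R, hRc, hRG, hRs, S, hSc, hS⟩ := even_copies r hr Q hQ2
  rw [hQ3] at hSc
  rw [hQ1] at hRc
  -- representatives
  have hch : ∀ L : Set (ℝ × ℝ), ∃ v : ℝ × ℝ × ℝ, L ∈ S → (v.1 ≠ 0 ∨ v.2.1 ≠ 0) ∧
      L = Line v.1 v.2.1 v.2.2 ∧ (∃ p ∈ R, ∃ q ∈ R, p ≠ q ∧ p ∈ L ∧ q ∈ L) ∧
      (R.filter (fun p => v.1 * p.1 + v.2.1 * p.2 < v.2.2)).card =
        (n / 2 - 1) + n * (r - 1) ∧
      (R.filter (fun p => v.2.2 < v.1 * p.1 + v.2.1 * p.2)).card =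
        (n / 2 - 1) + n * r := by
    intro L
    by_cases hL : L ∈ S
    · obtain ⟨a, b, c, h1, h2, h3, h4, h5⟩ := hS L hL
      rw [hQ1] at h4 h5
      exact ⟨(a, b, c), fun _ => ⟨h1, h2, h3, h4, h5⟩⟩
    · exact ⟨(0, 0, 0), fun h => absurd h hL⟩
  choose v hv using hch
  -- a direction
  obtain ⟨lam, hlam⟩ := Infinite.exists_notMem_finset (S.image (fun L => -(v L).1 / (v L).2.1))
  have hdir : ∀ L ∈ S, (v L).1 + (v L).2.1 * lam ≠ 0 := by
    intro L hL h
    apply hlam
    rw [mem_image]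
    refine ⟨L, hL, ?_⟩
    have hb : (v L).2.1 ≠ 0 := by
      intro hb
      rw [hb, zero_mul, add_zero] at h
      rcases (hv L hL).1 with h' | h'
      · exact h' h
      · exact h' hb
    rw [div_eq_iff hb]
    linarith
  obtain ⟨u, S', hS'S, hS'c, hu⟩ : ∃ (u : ℝ × ℝ) (S' : Finset (Set (ℝ × ℝ))), S' ⊆ S ∧
      S.card ≤ 2 * S'.card ∧ ∀ L ∈ S', (v L).1 * u.1 + (v L).2.1 * u.2 < 0 := by
    have hsum : (S.filter (fun L => (v L).1 + (v L).2.1 * lam < 0)).card +
        (S.filter (fun L => ¬ (v L).1 + (v L).2.1 * lam < 0)).card = S.card :=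
      card_filter_add_card_filter_not _
    rcases le_total (S.filter (fun L => (v L).1 + (v L).2.1 * lam < 0)).card
      (S.filter (fun L => ¬ (v L).1 + (v L).2.1 * lam < 0)).card with h | h
    · refine ⟨(-1, -lam), S.filter (fun L => ¬ (v L).1 + (v L).2.1 * lam < 0), filter_subset _ _,
        by omega, ?_⟩
      intro L hL
      rw [mem_filter, not_lt] at hL
      have := lt_of_le_of_ne hL.2 (Ne.symm (hdir L hL.1))
      simp only
      linarith
    · refine ⟨(1, lam), S.filter (fun L => (v L).1 + (v L).2.1 * lam < 0), filter_subset _ _,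
        by omega, ?_⟩
      intro L hL
      rw [mem_filter] at hL
      simp only
      linarith [hL.2]
  -- the open set
  set U : Set (ℝ × ℝ) := ⋂ L ∈ S', {z | (v L).1 * z.1 + (v L).2.1 * z.2 < (v L).2.2} with hU
  have hUo : IsOpen U := by
    rw [hU]
    apply isOpen_biInter_finset
    intro L _
    exact isOpen_lt (by fun_prop) continuous_const
  have hUne : U.Nonempty := by
    have hev : ∀ᶠ K : ℝ in atTop, ∀ L ∈ S',
        K * ((v L).1 * u.1 + (v L).2.1 * u.2) < (v L).2.2 := by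
      rw [Filter.eventually_all_finset]
      intro L hL
      exact (tendsto_id.atTop_mul_const_of_neg (hu L hL)).eventually_lt_atBot _
    obtain ⟨K, hK⟩ := hev.exists
    refine ⟨(K * u.1, K * u.2), ?_⟩
    rw [hU, Set.mem_iInter₂]
    intro L hL
    have := hK L hL
    rw [Set.mem_ofPred_eq]
    simp only
    linarith
  obtain ⟨P, hRP, hPc, hPG, hPU⟩ := exists_points n hRG hUo hUne
  have hdiff : (P \ R).card = n := by
    rw [card_sdiff_of_subset hRP, hPc]
    omega
  refine ⟨P, R, ?_, hPG, hRP, hdiff, hRs, ?_⟩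
  · rw [hPc, hRc]
    ring
  · have h1 : r * f n ≤ S'.card := by
      rw [hSc] at hS'c
      have : 2 * r * f n = 2 * (r * f n) := by ring
      omega
    refine h1.trans ?_
    rw [← Set.ncard_coe_finset]
    apply Set.ncard_le_ncard _ (bisectors_finite P)
    intro L hL
    rw [mem_coe] at hL
    obtain ⟨hab, hLe, ⟨p, hp, q, hq, hpq, hpL, hqL⟩, e1, e2⟩ := hv L (hS'S hL)
    have hout : ∀ z ∈ P, z ∉ R → (v L).1 * z.1 + (v L).2.1 * z.2 < (v L).2.2 := by
      intro z hz hzR
      have := hPU z hz hzR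
      rw [hU, Set.mem_iInter₂] at this
      exact this L hL
    have hn2 : 2 ≤ n := by
      by_contra hc
      have hn0 : n = 0 := by
        obtain ⟨h, rfl⟩ := hn
        omega
      rw [hn0, mul_zero] at hRc
      rw [card_eq_zero.1 hRc] at hp
      exact absurd hp (notMem_empty _)
    have c1 : (P.filter (fun z => (v L).1 * z.1 + (v L).2.1 * z.2 < (v L).2.2)).card =
        (n / 2 - 1) + n * (r - 1) + n := by
      rw [← e1]
      conv_rhs => rw [← hdiff]
      rw [← card_union_of_disjoint]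
      · congr 1
        ext z
        simp only [Finset.mem_filter, Finset.mem_union, Finset.mem_sdiff]
        constructor
        · rintro ⟨h2, h3⟩
          by_cases h4 : z ∈ R
          · exact Or.inl ⟨h4, h3⟩
          · exact Or.inr ⟨h2, h4⟩
        · rintro (⟨h2, h3⟩ | ⟨h2, h3⟩)
          · exact ⟨hRP h2, h3⟩
          · exact ⟨h2, hout z h2 h3⟩
      · rw [disjoint_left]
        intro z h2 h3
        exact (Finset.mem_sdiff.1 h3).2 (Finset.mem_filter.1 h2).1
    have c2 : (P.filter (fun z => (v L).2.2 < (v L).1 * z.1 + (v L).2.1 * z.2)).card =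
        (n / 2 - 1) + n * r := by
      rw [← e2]
      congr 1
      ext z
      simp only [mem_filter]
      constructor
      · rintro ⟨h2, h3⟩
        by_cases h4 : z ∈ R
        · exact ⟨h4, h3⟩
        · exact absurd (hout z h2 h4) (not_lt.2 h3.le)
      · rintro ⟨h2, h3⟩
        exact ⟨hRP h2, h3⟩
    have hk : (n / 2 - 1) + n * r = P.card / 2 - 1 := by
      rw [hPc, hRc]
      obtain ⟨h, rfl⟩ := hn
      have f1 : (h + h) / 2 = h := by omega
      have f3 : (2 * r * (h + h) + (h + h)) / 2 = 2 * r * h + h := by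
        have : 2 * r * (h + h) + (h + h) = 2 * (2 * r * h + h) := by ring
        rw [this]
        exact Nat.mul_div_cancel_left _ (by norm_num)
      rw [f1, f3]
      have : (h + h) * r = 2 * r * h := by ring
      omega
    have hk' : (n / 2 - 1) + n * (r - 1) + n = P.card / 2 - 1 := by
      rw [← hk]
      obtain ⟨q, rfl⟩ := Nat.exists_eq_add_of_le hr
      have : 1 + q - 1 = q := by omega
      rw [this]
      ring
    rw [Set.mem_ofPred_eq]
    refine ⟨_, _, _, hab, hLe, ⟨p, hRP hp, q, hRP hq, hpq, hpL, hqL⟩, ?_, ?_⟩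
    · rw [c1, hk']
    · rw [c2, hk]

end Pool.Agent.U272.AS
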