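import Pool.Agent.U272.AS.Bis
import Pool.Agent.KLev.Levels
import Pool.Agent.R117.KR.Levels

/-!
# Levels of almost mirror-symmetric families of lines
-/

set_option autoImplicit false

namespace Pool.Agent.U272.AS

open Finset Pool.Agent.TH124.KE KLev.Levels

/-- No two lines of `Γ` are parallel and no three pass through a common point. -/
def SimpleFam (Γ : Finset (ℝ × ℝ)) : Prop :=
  (∀ l ∈ Γ, ∀ m ∈ Γ, l ≠ m → l.1 ≠ m.1) ∧
    ∀ l ∈ Γ, ∀ m ∈ Γ, ∀ j ∈ Γ, l ≠ m → l ≠ j → m ≠ j →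
      ∀ x : ℝ, ¬ (height l x = height m x ∧ height m x = height j x)

lemma hh_height (l : ℝ × ℝ) (x : ℝ) : hh (-x) l = height l x := by
  unfold hh height
  ring

lemma gp_of {Γ : Finset (ℝ × ℝ)} (h : SimpleFam Γ) : GP Γ := by
  have hinj : ∀ p ∈ Γ, ∀ q ∈ Γ, p.1 = q.1 → p = q := by
    intro p hp q hq hpq
    by_contra hne
    exact h.1 p hp q hq hne hpq
  refine ⟨hinj, ?_⟩
  intro p hp q hq r hr hpq hpr hqr he
  have h1 : p.1 ≠ q.1 := h.1 p hp q hq hpq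
  have h2 : p.1 ≠ r.1 := h.1 p hp r hr hpr
  have e1 := hh_sl h1
  have e2 := hh_sl h2
  rw [← he] at e2
  apply h.2 q hq p hp r hr hpq.symm hqr hpr (-(sl p q))
  rw [← hh_height, ← hh_height, ← hh_height, neg_neg]
  exact ⟨e1, e2.symm⟩

lemma kLevel_card' {Γ : Finset (ℝ × ℝ)} {k : ℕ} {p : ℝ × ℝ} (hp : IsVertex Γ k p) :
    level Γ p ≤ k ∧ k < (Γ.filter (fun l => height l p.1 ≤ p.2)).card := by
  classical
  have h := Pool.Agent.R117.KR.kLevel_card (Γ := Γ) (k := k) (p := p)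
    (Pool.Agent.R117.KR.vertex_mem hp)
  refine ⟨h.1, ?_⟩
  convert h.2 using 2
  ext l
  rw [mem_filter, mem_filter]
  exact Iff.rfl

lemma card_on {Γ : Finset (ℝ × ℝ)} (h : SimpleFam Γ) (p : ℝ × ℝ) :
    (Γ.filter (fun l => height l p.1 = p.2)).card ≤ 2 := by
  by_contra hc
  push Not at hc
  obtain ⟨l, hl, m, hm, j, hj, h1, h2, h3⟩ := Finset.two_lt_card.1 hc
  rw [mem_filter] at hl hm hj
  exact h.2 l hl.1 m hm.1 j hj.1 h1 h2 h3 p.1 ⟨hl.2.trans hm.2.symm, hm.2.trans hj.2.symm⟩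

/-- vertices are edges -/
theorem complexity_le_kes {Γ : Finset (ℝ × ℝ)} (h : SimpleFam Γ) (k : ℕ) :
    complexity Γ k ≤ (kes Γ k).card + (kes Γ (k - 1)).card := by
  classical
  have hG := gp_of h
  refine le_trans ?_ (card_union_le (kes Γ k) (kes Γ (k - 1)))
  have hch : ∀ p : ℝ × ℝ, ∃ e : Seg, IsVertex Γ k p → e ∈ kes Γ k ∪ kes Γ (k - 1) ∧
      e.1 ∈ Γ ∧ e.2 ∈ Γ ∧ e.1.1 < e.2.1 ∧ height e.1 p.1 = p.2 ∧ height e.2 p.1 = p.2 := by
    intro p
    by_cases hp : IsVertex Γ k p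
    swap
    · exact ⟨((0, 0), (0, 0)), fun h => absurd h hp⟩
    obtain ⟨h1, h2⟩ := kLevel_card' hp
    obtain ⟨l, hl, m, hm, hlm, hlp, hmp, -⟩ := hp
    obtain ⟨u, v, hu, hv, huv, hup, hvp⟩ : ∃ u v, u ∈ Γ ∧ v ∈ Γ ∧ u.1 < v.1 ∧
        height u p.1 = p.2 ∧ height v p.1 = p.2 := by
      rcases lt_or_gt_of_ne (h.1 l hl m hm hlm) with h3 | h3
      · exact ⟨l, m, hl, hm, h3, hlp, hmp⟩
      · exact ⟨m, l, hm, hl, h3, hmp, hlp⟩
    have hsl : sl u v = -p.1 := by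
      apply (hh_eq huv.ne _).1
      rw [hh_height, hh_height, hup, hvp]
    have hlev : bel Γ (sl u v) u = level Γ p := by
      unfold bel level
      rw [hsl]
      congr 1
      ext j
      simp only [mem_filter]
      rw [hh_height, hh_height, hup]
    have h3 : (Γ.filter (fun l => height l p.1 ≤ p.2)).card ≤ level Γ p + 2 := by
      refine le_trans ?_ (Nat.add_le_add_left (card_on h p) _)
      unfold level
      refine le_trans (card_le_card ?_) (card_union_le _ _)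
      intro j hj
      rw [mem_filter] at hj
      rw [mem_union, mem_filter, mem_filter]
      rcases lt_or_eq_of_le hj.2 with h4 | h4
      · exact Or.inl ⟨hj.1, h4⟩
      · exact Or.inr ⟨hj.1, h4⟩
    refine ⟨(u, v), fun _ => ⟨?_, hu, hv, huv, hup, hvp⟩⟩
    rw [mem_union, mem_kes, mem_kes]
    have h4 : level Γ p = k ∨ level Γ p = k - 1 := by omega
    rcases h4 with h4 | h4
    · exact Or.inl ⟨hu, hv, huv, hlev.trans h4⟩
    · exact Or.inr ⟨hu, hv, huv, hlev.trans h4⟩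
  choose e he using hch
  unfold complexity
  rw [Set.ncard_eq_toFinset_card _ (vertices_finite Γ k)]
  apply card_le_card_of_injOn e
  · intro p hp
    rw [Set.Finite.coe_toFinset] at hp
    exact (he p hp).1
  · intro p hp q hq hpq
    rw [Set.Finite.coe_toFinset] at hp hq
    obtain ⟨-, -, -, h1, h2, h3⟩ := he p hp
    obtain ⟨-, -, -, -, h5, h6⟩ := he q hq
    rw [← hpq] at h5 h6
    unfold height at h2 h3 h5 h6
    have h7 : ((e p).1.1 - (e p).2.1) * (p.1 - q.1) = 0 := by linarith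
    have h8 : p.1 = q.1 := by
      rcases mul_eq_zero.1 h7 with h9 | h9
      · exact absurd (sub_eq_zero.1 h9) h1.ne
      · exact sub_eq_zero.1 h9
    refine Prod.ext h8 ?_
    rw [← h2, ← h5, h8]

open scoped Classical in
/-- **Levels of almost mirror-symmetric families.** -/
theorem level_le {Γ Δ : Finset (ℝ × ℝ)} {o : ℝ × ℝ} (hΓ : SimpleFam Γ)
    (hΔ : ∀ l ∈ Δ, o + o - l ∈ Δ) {t k d : ℕ} (ht : (Γ \ Δ).card + (Δ \ Γ).card ≤ t)
    (h1 : Γ.card ≤ 2 * k + 1 + d) (h2 : 2 * k + 1 ≤ Γ.card + d) :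
    (complexity Γ k : ℝ) ≤ 1300 * (Γ.card + t) * ((d : ℝ) + t + 1) ^ ((1 : ℝ) / 3) := by
  obtain ⟨R₀, hR₀Γ, hR₀, hR₀t⟩ := core hΔ ht
  have hR₀t' : (Γ \ R₀).card ≤ t := by convert hR₀t
  have hG := gp_of hΓ
  have e1 := kes_final (P := Γ) (R := R₀) (o := o) (t := t) (k := k) (d := d + 1) hG hR₀Γ hR₀ hR₀t'
    (by omega) (by omega)
  have e2 : ((kes Γ (k - 1)).card : ℝ) ≤
      500 * (Γ.card + t) * (((d + 1 : ℕ) : ℝ) + t + 1) ^ (1 / 3 : ℝ) := by
    rcases Nat.eq_zero_or_pos k with h0 | h0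
    · rw [h0] at e1 ⊢
      exact e1
    · exact kes_final (P := Γ) (R := R₀) (o := o) (t := t) (k := k - 1) (d := d + 1) hG hR₀Γ hR₀
        hR₀t' (by omega) (by omega)
  have e3 : (complexity Γ k : ℝ) ≤ (kes Γ k).card + (kes Γ (k - 1)).card := by
    exact_mod_cast complexity_le_kes hΓ k
  set Z : ℝ := ((d : ℝ) + t + 1) ^ ((1 : ℝ) / 3) with hZ
  have hZ0 : 0 ≤ Z := by positivity
  have e4 : (((d + 1 : ℕ) : ℝ) + t + 1) ^ (1 / 3 : ℝ) ≤ 1.26 * Z := by
    have hd0 : (0 : ℝ) ≤ d := Nat.cast_nonneg d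
    have ht0 : (0 : ℝ) ≤ t := Nat.cast_nonneg t
    calc (((d + 1 : ℕ) : ℝ) + t + 1) ^ (1 / 3 : ℝ) ≤ (2 * ((d : ℝ) + t + 1)) ^ (1 / 3 : ℝ) := by
          apply Real.rpow_le_rpow (by positivity) _ (by norm_num)
          push_cast
          linarith
      _ = 2 ^ (1 / 3 : ℝ) * Z := by rw [Real.mul_rpow (by norm_num) (by positivity)]
      _ ≤ 1.26 * Z := by
          apply mul_le_mul_of_nonneg_right _ hZ0
          refine le_of_pow_le_pow_left₀ (n := 3) (by norm_num) (by norm_num) ?_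
          rw [← Real.rpow_natCast, ← Real.rpow_mul (by norm_num)]
          norm_num
  have h0 : (0 : ℝ) ≤ 500 * (Γ.card + t) := by positivity
  have e5 : 500 * ((Γ.card : ℝ) + t) * (((d + 1 : ℕ) : ℝ) + t + 1) ^ (1 / 3 : ℝ) ≤
      500 * (Γ.card + t) * (1.26 * Z) := mul_le_mul_of_nonneg_left e4 h0
  have h3 : 0 ≤ ((Γ.card : ℝ) + t) * Z := by positivity
  nlinarith

end Pool.Agent.U272.AS
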