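import Pool.Agent.U272.AS.Extend
import Pool.Agent.U272.PS.Lower

/-!
# Many bisectors at distance `n` from a centrally symmetric set
-/

set_option autoImplicit false

namespace Pool.Agent.U272.AS

open Finset Filter Topology KLev.Halving Pool.Agent.U272.PS

/-- the tilted coefficient -/
lemma tilt_im {m : ℕ} [NeZero m] (k : ZMod m) (δ : ℝ) :
    ((ζ k - 1) * (1 - (δ : ℂ) * Complex.I)).im = (ζ k).im + δ * (1 - (ζ k).re) := by
  simp only [Complex.mul_im, Complex.sub_re, Complex.one_re, Complex.sub_im, Complex.one_im,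
    Complex.mul_re, Complex.ofReal_re, Complex.I_re, mul_zero, Complex.ofReal_im, Complex.I_im,
    mul_one, sub_self, sub_zero, zero_add, add_zero]
  ring

lemma re_lt_one {m : ℕ} [NeZero m] (k : ZMod m) (hk : k ≠ 0) : (ζ k).re < 1 := by
  have h := re_pos k hk
  have h1 : ((ζ k - 1) * (-Complex.I)).im = 1 - (ζ k).re := by
    simp
  rw [h1] at h
  linarith

lemma exists_tilt (m : ℕ) [NeZero m] : ∃ δ : ℝ, 0 < δ ∧ ∀ k : ZMod m, (ζ k).im ≠ 0 →
    0 < ((ζ k).im + δ * (1 - (ζ k).re)) * (ζ k).im := by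
  have h1 : ∀ᶠ δ : ℝ in 𝓝[>] 0, ∀ k : ZMod m, (ζ k).im ≠ 0 →
      0 < ((ζ k).im + δ * (1 - (ζ k).re)) * (ζ k).im := by
    rw [Filter.eventually_all]
    intro k
    by_cases hk : (ζ k).im = 0
    · exact Filter.Eventually.of_forall fun δ h => absurd hk h
    have hc : Continuous (fun δ : ℝ => ((ζ k).im + δ * (1 - (ζ k).re)) * (ζ k).im) := by
      fun_prop
    have h0 : 0 < ((ζ k).im + (0 : ℝ) * (1 - (ζ k).re)) * (ζ k).im := by
      rw [zero_mul, add_zero]
      exact mul_self_pos.2 hk
    filter_upwards [((hc.tendsto 0).mono_left (nhdsWithin_le_nhds (s := Set.Ioi (0 : ℝ)))).eventually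
      (lt_mem_nhds h0)] with δ h _
    exact h
  have h2 : ∀ᶠ δ : ℝ in 𝓝[>] 0, 0 < δ := self_mem_nhdsWithin
  obtain ⟨δ, h3, h4⟩ := (h1.and h2).exists
  exact ⟨δ, h4, h3⟩

open scoped Classical in
lemma even_count (r : ℕ) (hr : 1 ≤ r) [NeZero (2 * r)] :
    (univ.filter (fun k : ZMod (2 * r) => (ζ k).im < 0)).card = r - 1 ∧
    (univ.filter (fun k : ZMod (2 * r) => k ≠ 0 ∧ 0 ≤ (ζ k).im)).card = r := by
  have h1 : (univ.filter (fun k : ZMod (2 * r) => (ζ k).im < 0)).card =
      (univ.filter (fun k : ZMod (2 * r) => 0 < (ζ k).im)).card := by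
    apply card_nbij' (fun k => -k) (fun k => -k)
    · intro k hk
      simp only [coe_filter, mem_univ, true_and, Set.mem_ofPred_eq] at hk ⊢
      rw [ζ_neg, Complex.conj_im]
      linarith
    · intro k hk
      simp only [coe_filter, mem_univ, true_and, Set.mem_ofPred_eq] at hk ⊢
      rw [ζ_neg, Complex.conj_im]
      linarith
    · intro k _
      exact neg_neg k
    · intro k _
      exact neg_neg k
  have h2 : (univ.filter (fun k : ZMod (2 * r) => k ≠ 0 ∧ (ζ k).im = 0)).card ≤ 1 := by
    rw [card_le_one]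
    have key : ∀ k : ZMod (2 * r), k ≠ 0 → (ζ k).im = 0 → (ζ k).re = -1 := by
      intro k hk h
      have h3 := ζ_circle k
      have h4 := re_lt_one k hk
      rw [h] at h3
      have h5 : ((ζ k).re - 1) * ((ζ k).re + 1) = 0 := by linarith
      rcases mul_eq_zero.1 h5 with h6 | h6
      · linarith
      · linarith
    intro k hk l hl
    rw [mem_filter] at hk hl
    apply ζ_inj
    apply Complex.ext
    · rw [key k hk.2.1 hk.2.2, key l hl.2.1 hl.2.2]
    · rw [hk.2.2, hl.2.2]
  have h3 : (univ.filter (fun k : ZMod (2 * r) => k ≠ 0 ∧ 0 ≤ (ζ k).im)).card =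
      (univ.filter (fun k : ZMod (2 * r) => 0 < (ζ k).im)).card +
        (univ.filter (fun k : ZMod (2 * r) => k ≠ 0 ∧ (ζ k).im = 0)).card := by
    rw [← card_union_of_disjoint]
    · congr 1
      ext k
      simp only [mem_union, mem_filter, mem_univ, true_and]
      constructor
      · rintro ⟨hk, h⟩
        rcases lt_or_eq_of_le h with h | h
        · exact Or.inl h
        · exact Or.inr ⟨hk, h.symm⟩
      · rintro (h | ⟨hk, h⟩)
        · refine ⟨?_, h.le⟩
          rintro rfl
          rw [ζ_zero, Complex.one_im] at h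
          exact lt_irrefl _ h
        · exact ⟨hk, h.ge⟩
    · rw [disjoint_filter]
      rintro k _ h ⟨-, h'⟩
      rw [h'] at h
      exact lt_irrefl _ h
  have h4 : (univ.filter (fun k : ZMod (2 * r) => (ζ k).im < 0)).card +
      (univ.filter (fun k : ZMod (2 * r) => k ≠ 0 ∧ 0 ≤ (ζ k).im)).card = 2 * r - 1 := by
    rw [← card_union_of_disjoint]
    · have : univ.filter (fun k : ZMod (2 * r) => (ζ k).im < 0) ∪
          univ.filter (fun k : ZMod (2 * r) => k ≠ 0 ∧ 0 ≤ (ζ k).im) = univ.erase 0 := by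
        ext k
        simp only [mem_union, mem_filter, mem_univ, true_and, mem_erase, and_true]
        constructor
        · rintro (h | h)
          · rintro rfl
            rw [ζ_zero, Complex.one_im] at h
            exact lt_irrefl _ h
          · exact h.1
        · intro h
          rcases lt_or_ge (ζ k).im 0 with h' | h'
          · exact Or.inl h'
          · exact Or.inr ⟨h, h'⟩
      rw [this, card_erase_of_mem (mem_univ _), card_univ, ZMod.card]
    · rw [disjoint_filter]
      rintro k _ h ⟨-, h'⟩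
      linarith
  constructor <;> omega

open scoped Classical in
/-- a centrally symmetric set with many lines at distance `n` from the middle -/
theorem even_copies (r : ℕ) (hr : 1 ≤ r) (Q : Finset (ℝ × ℝ)) (hQ : GeneralPosition Q) :
    ∃ R : Finset (ℝ × ℝ), R.card = 2 * r * Q.card ∧ GeneralPosition R ∧
      (∀ z : ℂ, pl z ∈ R → pl (Complex.exp (2 * Real.pi * Complex.I / (2 * r : ℕ)) * z) ∈ R) ∧
      ∃ S : Finset (Set (ℝ × ℝ)), S.card = 2 * r * {L | IsBisector Q L}.ncard ∧
        ∀ L ∈ S, ∃ a b c : ℝ, (a ≠ 0 ∨ b ≠ 0) ∧ L = Line a b c ∧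
          (∃ p ∈ R, ∃ q ∈ R, p ≠ q ∧ p ∈ L ∧ q ∈ L) ∧
          (R.filter (fun p => a * p.1 + b * p.2 < c)).card =
            (Q.card / 2 - 1) + Q.card * (r - 1) ∧
          (R.filter (fun p => c < a * p.1 + b * p.2)).card =
            (Q.card / 2 - 1) + Q.card * r := by
  have : NeZero (2 * r) := ⟨by omega⟩
  obtain ⟨δ, hδ, hδ2⟩ := exists_tilt (2 * r)
  have hτ : (1 - (δ : ℂ) * Complex.I) ≠ 0 := by
    intro h
    have := congrArg Complex.re h
    simp at this
  have hpos : ∀ k : ZMod (2 * r), k ≠ 0 → 0 ≤ (ζ k).im →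
      0 < ((ζ k - 1) * (1 - (δ : ℂ) * Complex.I)).im := by
    intro k hk h
    rw [tilt_im]
    have := mul_pos hδ (sub_pos.2 (re_lt_one k hk))
    linarith
  have hneg : ∀ k : ZMod (2 * r), (ζ k).im < 0 →
      ((ζ k - 1) * (1 - (δ : ℂ) * Complex.I)).im < 0 := by
    intro k h
    rw [tilt_im]
    have := hδ2 k h.ne
    by_contra hc
    push Not at hc
    have := mul_nonpos_of_nonneg_of_nonpos hc h.le
    linarith
  obtain ⟨c1, c2⟩ := even_count r hr
  have f1 : univ.filter (fun k : ZMod (2 * r) => k ≠ 0 ∧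
      ((ζ k - 1) * (1 - (δ : ℂ) * Complex.I)).im < 0) = univ.filter (fun k => (ζ k).im < 0) := by
    ext k
    simp only [mem_filter, mem_univ, true_and]
    constructor
    · rintro ⟨hk, h⟩
      by_contra hc
      push Not at hc
      have := hpos k hk hc
      linarith
    · intro h
      refine ⟨?_, hneg k h⟩
      rintro rfl
      rw [ζ_zero, Complex.one_im] at h
      exact lt_irrefl _ h
  have f2 : univ.filter (fun k : ZMod (2 * r) => k ≠ 0 ∧
      0 < ((ζ k - 1) * (1 - (δ : ℂ) * Complex.I)).im) =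
        univ.filter (fun k => k ≠ 0 ∧ 0 ≤ (ζ k).im) := by
    ext k
    simp only [mem_filter, mem_univ, true_and]
    constructor
    · rintro ⟨hk, h⟩
      refine ⟨hk, ?_⟩
      by_contra hc
      push Not at hc
      have := hneg k hc
      linarith
    · rintro ⟨hk, h⟩
      exact ⟨hk, hpos k hk h⟩
  obtain ⟨R, h1, h2, h3, F, hF, h4⟩ := exists_copies (2 * r) ((1 - (δ : ℂ) * Complex.I)⁻¹)
    (1 - (δ : ℂ) * Complex.I) (inv_mul_cancel₀ hτ) (fun k hk => by
      rcases lt_or_ge (ζ k).im 0 with h | h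
      · exact (hneg k h).ne
      · exact (hpos k hk h).ne') Q hQ
  refine ⟨R, h1, h2, by rw [← ζ_one_primitive]; exact h3, ?_⟩
  -- the lines
  set T : Finset (ZMod (2 * r) × Set (ℝ × ℝ)) := univ ×ˢ (bisectors_finite Q).toFinset with hT
  have hTm : ∀ x ∈ T, IsBisector Q x.2 := by
    intro x hx
    rw [hT, mem_product, Set.Finite.mem_toFinset] at hx
    exact hx.2
  refine ⟨T.image F, ?_, ?_⟩
  · rw [card_image_of_injOn (fun x hx y hy h => hF (hTm x hx) (hTm y hy) h), hT, card_product,
      card_univ, ZMod.card, Set.ncard_eq_toFinset_card _ (bisectors_finite Q)]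
  · intro L hL
    obtain ⟨x, hx, rfl⟩ := mem_image.1 hL
    obtain ⟨a, b, c, σ, hab, hσ, he, hsp, e1, e2⟩ := h4 x (hTm x hx)
    rcases lt_or_gt_of_ne hσ with hσ | hσ
    · have g1 : univ.filter (fun k : ZMod (2 * r) => k ≠ 0 ∧
          σ * ((ζ k - 1) * (1 - (δ : ℂ) * Complex.I)).im < 0) =
          univ.filter (fun k => k ≠ 0 ∧ 0 ≤ (ζ k).im) := by
        rw [← f2]
        apply filter_congr
        intro k _
        constructor
        · rintro ⟨hk, h⟩
          exact ⟨hk, (neg_iff_pos_of_mul_neg h).1 hσ⟩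
        · rintro ⟨hk, h⟩
          exact ⟨hk, mul_neg_of_neg_of_pos hσ h⟩
      have g2 : univ.filter (fun k : ZMod (2 * r) => k ≠ 0 ∧
          0 < σ * ((ζ k - 1) * (1 - (δ : ℂ) * Complex.I)).im) =
          univ.filter (fun k => (ζ k).im < 0) := by
        rw [← f1]
        apply filter_congr
        intro k _
        constructor
        · rintro ⟨hk, h⟩
          exact ⟨hk, (neg_iff_neg_of_mul_pos h).1 hσ⟩
        · rintro ⟨hk, h⟩
          exact ⟨hk, mul_pos_of_neg_of_neg hσ h⟩
      rw [g1, c2] at e1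
      rw [g2, c1] at e2
      refine ⟨-a, -b, -c, ?_, ?_, hsp, ?_, ?_⟩
      · rcases hab with h | h
        · exact Or.inl (neg_ne_zero.2 h)
        · exact Or.inr (neg_ne_zero.2 h)
      · rw [he]
        ext p
        simp only [Line, Set.mem_ofPred_eq]
        constructor <;> intro h <;> linarith
      · rw [← e2]
        congr 1
        apply filter_congr
        intro p _
        constructor <;> intro h <;> linarith
      · rw [← e1]
        congr 1
        apply filter_congr
        intro p _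
        constructor <;> intro h <;> linarith
    · have g1 : univ.filter (fun k : ZMod (2 * r) => k ≠ 0 ∧
          σ * ((ζ k - 1) * (1 - (δ : ℂ) * Complex.I)).im < 0) =
          univ.filter (fun k => (ζ k).im < 0) := by
        rw [← f1]
        apply filter_congr
        intro k _
        constructor
        · rintro ⟨hk, h⟩
          exact ⟨hk, (pos_iff_neg_of_mul_neg h).1 hσ⟩
        · rintro ⟨hk, h⟩
          exact ⟨hk, mul_neg_of_pos_of_neg hσ h⟩
      have g2 : univ.filter (fun k : ZMod (2 * r) => k ≠ 0 ∧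
          0 < σ * ((ζ k - 1) * (1 - (δ : ℂ) * Complex.I)).im) =
          univ.filter (fun k => k ≠ 0 ∧ 0 ≤ (ζ k).im) := by
        rw [← f2]
        apply filter_congr
        intro k _
        constructor
        · rintro ⟨hk, h⟩
          exact ⟨hk, (pos_iff_pos_of_mul_pos h).1 hσ⟩
        · rintro ⟨hk, h⟩
          exact ⟨hk, mul_pos hσ h⟩
      rw [g1, c1] at e1
      rw [g2, c2] at e2
      exact ⟨a, b, c, hab, he, hsp, e1, e2⟩

end Pool.Agent.U272.AS
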