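import Pool.Agent.U272.AS.Slab

/-!
# `k`-edges of almost centrally symmetric point sets
-/

set_option autoImplicit false

namespace Pool.Agent.U272.AS

open Finset Pool.Agent.TH124.KE

lemma H_hh {o : ℝ × ℝ} {σ : ℝ} {p q : ℝ × ℝ} : H o σ p = H o σ q ↔ hh σ p = hh σ q := by
  unfold H
  constructor <;> intro h <;> linarith

lemma H_sl {R : Finset (ℝ × ℝ)} (hG : GP R) (o : ℝ × ℝ) {p q : ℝ × ℝ} (hp : p ∈ R) (hq : q ∈ R)
    (hpq : p ≠ q) : H o (sl p q) q = H o (sl p q) p :=
  H_hh.2 (hh_sl (hG.ne1 hp hq hpq))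

lemma half_eq {o p : ℝ × ℝ} (h : p = o + o - p) : p = o := by
  have h1 := congrArg Prod.fst h
  have h2 := congrArg Prod.snd h
  simp only [Prod.fst_sub, Prod.snd_sub, Prod.fst_add, Prod.snd_add] at h1 h2
  exact Prod.ext (by linarith) (by linarith)

lemma H_ne {R : Finset (ℝ × ℝ)} {o : ℝ × ℝ} (hG : GP R) (hR : ∀ p ∈ R, o + o - p ∈ R)
    {p q : ℝ × ℝ} (hp : p ∈ R) (hq : q ∈ R) (hpq : p ≠ q) (hqp : q ≠ o + o - p) :
    H o (sl p q) p ≠ 0 := by
  intro h0
  have h1 : H o (sl p q) q = 0 := by rw [H_sl hG o hp hq hpq, h0]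
  have h2 : H o (sl p q) (o + o - p) = 0 := by rw [H_neg, h0, neg_zero]
  have h3 : H o (sl p q) (o + o - q) = 0 := by rw [H_neg, h1, neg_zero]
  have h4 := level_two hG o (sl p q) 0
  have h5 : 2 < #{w ∈ R | H o (sl p q) w = 0} := by
    rw [Finset.two_lt_card]
    by_cases hpo : p = o + o - p
    · have hpo' := half_eq hpo
      refine ⟨p, mem_filter.2 ⟨hp, h0⟩, q, mem_filter.2 ⟨hq, h1⟩, o + o - q,
        mem_filter.2 ⟨hR q hq, h3⟩, hpq, ?_, ?_⟩
      · intro h
        apply hqp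
        rw [h, neg_neg']
      · intro h
        apply hpq
        rw [hpo', half_eq h]
    · exact ⟨p, mem_filter.2 ⟨hp, h0⟩, q, mem_filter.2 ⟨hq, h1⟩, o + o - p,
        mem_filter.2 ⟨hR p hp, h2⟩, hpq, hpo, hqp⟩
  omega

/-- the line of a pair -/
noncomputable def ln (e : Seg) : Set (ℝ × ℝ) :=
  Pool.Agent.R117.KR.Line (-(sl e.1 e.2)) 1 (hh (sl e.1 e.2) e.1)

lemma mem_ln {e : Seg} {z : ℝ × ℝ} : z ∈ ln e ↔ hh (sl e.1 e.2) z = hh (sl e.1 e.2) e.1 := by
  unfold ln Pool.Agent.R117.KR.Line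
  rw [Set.mem_ofPred_eq]
  have : -(sl e.1 e.2) * z.1 + 1 * z.2 = hh (sl e.1 e.2) z := by unfold hh; ring
  rw [this]

theorem EE_card {R : Finset (ℝ × ℝ)} {o : ℝ × ℝ} (hG : GP R) (hR : ∀ p ∈ R, o + o - p ∈ R)
    (M : ℕ) : #(EE R o M) ≤ 2 * (2 * #R * (M / 2 + 1)) := by
  classical
  have h1 : #(EE R o M) ≤ 2 * #((EE R o M).image ln) := by
    apply card_le_mul_card_image
    intro L hL
    obtain ⟨e, he, rfl⟩ := mem_image.1 hL
    unfold EE at he
    rw [mem_filter, mem_product] at he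
    obtain ⟨⟨hp, hq⟩, hne, -, -⟩ := he
    have hsub : (EE R o M).filter (fun x => ln x = ln e) ⊆ {e, e.swap} := by
      intro x hx
      unfold EE at hx
      rw [mem_filter, mem_filter, mem_product] at hx
      obtain ⟨⟨⟨hx1, hx2⟩, hxne, -, -⟩, hxe⟩ := hx
      have m1 : x.1 ∈ ln e := by
        rw [← hxe, mem_ln]
      have m2 : x.2 ∈ ln e := by
        rw [← hxe, mem_ln]
        exact hh_sl (hG.ne1 hx1 hx2 hxne)
      have key : ∀ z ∈ R, z ∈ ln e → z = e.1 ∨ z = e.2 := by
        intro z hz hzL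
        by_contra hc
        push Not at hc
        have h4 := level_two hG o (sl e.1 e.2) (H o (sl e.1 e.2) e.1)
        have h5 : 2 < #{w ∈ R | H o (sl e.1 e.2) w = H o (sl e.1 e.2) e.1} := by
          rw [Finset.two_lt_card]
          refine ⟨e.1, mem_filter.2 ⟨hp, rfl⟩, e.2, mem_filter.2 ⟨hq, H_sl hG o hp hq hne⟩, z,
            mem_filter.2 ⟨hz, H_hh.2 (mem_ln.1 hzL)⟩, hne, hc.1.symm, hc.2.symm⟩
        omega
      rw [mem_insert, mem_singleton]
      rcases key _ hx1 m1 with h | h <;> rcases key _ hx2 m2 with h' | h'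
      · exact absurd (h.trans h'.symm) hxne
      · exact Or.inl (Prod.ext h h')
      · exact Or.inr (Prod.ext h h')
      · exact absurd (h.trans h'.symm) hxne
    exact (card_le_card hsub).trans card_le_two
  have h2 : #((EE R o M).image ln) ≤ 2 * #R * (M / 2 + 1) := by
    apply Pool.Agent.U272.PS.card_le hR M
    intro L hL
    obtain ⟨e, he, rfl⟩ := mem_image.1 hL
    unfold EE at he
    rw [mem_filter, mem_product] at he
    obtain ⟨⟨hp, hq⟩, hne, hne2, hN⟩ := he
    refine ⟨-(sl e.1 e.2), 1, hh (sl e.1 e.2) e.1, rfl, ?_, ?_, ?_⟩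
    · intro h
      apply H_ne hG hR hp hq hne hne2
      unfold H
      have : -(sl e.1 e.2) * o.1 + 1 * o.2 = hh (sl e.1 e.2) o := by unfold hh; ring
      rw [this] at h
      rw [h, sub_self]
    · exact ⟨e.1, hp, e.2, hq, hne, mem_ln.2 rfl, mem_ln.2 (hh_sl (hG.ne1 hp hq hne))⟩
    · refine le_trans (le_of_eq ?_) hN
      unfold N V H
      congr 1
      ext w
      simp only [mem_filter]
      have e1 : -(sl e.1 e.2) * (w.1 - o.1) + 1 * (w.2 - o.2) =
        hh (sl e.1 e.2) w - hh (sl e.1 e.2) o := by unfold hh; ring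
      have e2 : hh (sl e.1 e.2) e.1 - (-(sl e.1 e.2) * o.1 + 1 * o.2) =
        hh (sl e.1 e.2) e.1 - hh (sl e.1 e.2) o := by unfold hh; ring
      rw [e1, e2]
  omega

/-- the number of points of `R` in the strip of a `k`-edge of `P` -/
lemma strip_N {P R : Finset (ℝ × ℝ)} {o : ℝ × ℝ} (hP : GP P) (hRP : R ⊆ P)
    (hR : ∀ p ∈ R, o + o - p ∈ R) {t k J : ℕ} (ht : #(P \ R) ≤ t)
    (hJ1 : 2 * k + 2 + t ≤ #P + J) (hJ2 : #P + t ≤ 2 * k + 2 + J) {p q : ℝ × ℝ}
    (h : KE P k p q) (hne : H o (sl p q) p ≠ 0) :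
    N R o (sl p q) (V o (sl p q) p) ≤ J := by
  classical
  have hk := bel_abv hP h.1 h.2.1 h.2.2.1
  rw [h.2.2.2] at hk
  have hbel : #(P.filter (fun r => hh (sl p q) r < hh (sl p q) p)) = k := h.2.2.2
  have habv : #(P.filter (fun r => hh (sl p q) p < hh (sl p q) r)) = abv P (sl p q) p := rfl
  have gen : ∀ v : ℝ × ℝ → ℝ, (∀ z, v (o + o - z) = - v z) → ∀ γ : ℝ, 0 < γ →
      (R.filter (fun z => |v z| < γ)).card + (P.filter (fun z => γ < v z)).card ≤
        (P.filter (fun z => v z < γ)).card + t := by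
    intro v hv γ hγ
    have h1 := Pool.Agent.U272.PS.sym_count hR v hv hγ
    have h2 : (R.filter (fun z => v z < γ)).card ≤ (P.filter (fun z => v z < γ)).card :=
      card_le_card (filter_subset_filter _ hRP)
    have h3 : (P.filter (fun z => γ < v z)).card ≤
        (R.filter (fun z => γ < v z)).card + (P \ R).card := by
      refine (card_le_card (t := R.filter (fun z => γ < v z) ∪ (P \ R)) ?_).trans
        (card_union_le _ _)
      intro z hz
      rw [mem_filter] at hz
      rw [mem_union, mem_filter, mem_sdiff]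
      by_cases h : z ∈ R
      · exact Or.inl ⟨h, hz.2⟩
      · exact Or.inr ⟨hz.1, h⟩
    omega
  rcases lt_or_gt_of_ne hne with h0 | h0
  · have h1 := gen (fun z => - H o (sl p q) z) (fun z => by rw [H_neg]) (- H o (sl p q) p)
      (by linarith)
    have e1 : R.filter (fun z => |(- H o (sl p q) z)| < - H o (sl p q) p) =
        R.filter (fun z => V o (sl p q) z < V o (sl p q) p) := by
      apply filter_congr
      intro z _
      unfold V
      rw [abs_neg, abs_of_neg h0]
    have e2 : P.filter (fun z => - H o (sl p q) p < - H o (sl p q) z) =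
        P.filter (fun r => hh (sl p q) r < hh (sl p q) p) := by
      apply filter_congr
      intro z _
      unfold H
      constructor <;> intro h <;> linarith
    have e3 : P.filter (fun z => - H o (sl p q) z < - H o (sl p q) p) =
        P.filter (fun r => hh (sl p q) p < hh (sl p q) r) := by
      apply filter_congr
      intro z _
      unfold H
      constructor <;> intro h <;> linarith
    rw [e1, e2, e3, hbel, habv] at h1
    have : N R o (sl p q) (V o (sl p q) p) =
      (R.filter (fun z => V o (sl p q) z < V o (sl p q) p)).card := rfl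
    omega
  · have h1 := gen (fun z => H o (sl p q) z) (fun z => by rw [H_neg]) (H o (sl p q) p) h0
    have e1 : R.filter (fun z => |H o (sl p q) z| < H o (sl p q) p) =
        R.filter (fun z => V o (sl p q) z < V o (sl p q) p) := by
      apply filter_congr
      intro z _
      unfold V
      rw [abs_of_pos h0]
    have e2 : P.filter (fun z => H o (sl p q) p < H o (sl p q) z) =
        P.filter (fun r => hh (sl p q) p < hh (sl p q) r) := by
      apply filter_congr
      intro z _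
      unfold H
      constructor <;> intro h <;> linarith
    have e3 : P.filter (fun z => H o (sl p q) z < H o (sl p q) p) =
        P.filter (fun r => hh (sl p q) r < hh (sl p q) p) := by
      apply filter_congr
      intro z _
      unfold H
      constructor <;> intro h <;> linarith
    rw [e1, e2, e3, hbel, habv] at h1
    have : N R o (sl p q) (V o (sl p q) p) =
      (R.filter (fun z => V o (sl p q) z < V o (sl p q) p)).card := rfl
    omega

lemma sign_const {R : Finset (ℝ × ℝ)} {o : ℝ × ℝ} {J : ℕ} {I : Set ℝ} (hI : I.OrdConnected)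
    {σ₀ σ₁ : ℝ} (h0 : σ₀ ∈ I) (h1 : σ₁ ∈ I) {w : ℝ × ℝ} (hw : ¬ Dn R o J I w)
    (h : H o σ₀ w < 0) : H o σ₁ w < 0 := by
  by_contra hc
  push Not at hc
  obtain ⟨ζ, hζ, hζ2⟩ := intermediate_value_uIcc (f := fun σ => H o σ w) (a := σ₀) (b := σ₁)
    (H_cont o w).continuousOn (show (0 : ℝ) ∈ Set.uIcc (H o σ₀ w) (H o σ₁ w) by
      rw [Set.uIcc_of_le (h.le.trans hc)]
      exact ⟨h.le, hc⟩)
  apply hw
  refine ⟨ζ, hI.uIcc_subset h0 h1 hζ, ?_⟩
  have : V o ζ w = 0 := by
    unfold V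
    rw [show H o ζ w = 0 from hζ2, abs_zero]
  rw [this, N_zero]
  exact Nat.zero_le _

open scoped Classical in
/-- the `k`-edges of a slab -/
theorem kes_slab {P R : Finset (ℝ × ℝ)} {o : ℝ × ℝ} (hP : GP P) (hRP : R ⊆ P)
    (hR : ∀ p ∈ R, o + o - p ∈ R) {J k : ℕ} {I : Set ℝ} (hI : I.OrdConnected)
    (hev : ∀ σ₀ ∈ I, ∀ σ₁ ∈ I, σ₀ ≤ σ₁ →
      #((EE R o (2 * J + 1)).filter (fun e => σ₀ < sl e.1 e.2 ∧ sl e.1 e.2 ≤ σ₁)) < (J + 2) ^ 2) :
    (#((kes P k).filter (fun e => sl e.1 e.2 ∈ I ∧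
      N R o (sl e.1 e.2) (V o (sl e.1 e.2) e.1) ≤ J)) : ℝ) ≤
      7 * (((#(P \ R) + 4 * J + 8 : ℕ) : ℝ) * ((#(P \ R) + 4 * J + 8 : ℕ) : ℝ)) ^ (2 / 3 : ℝ) := by
  set F := (kes P k).filter (fun e => sl e.1 e.2 ∈ I ∧
      N R o (sl e.1 e.2) (V o (sl e.1 e.2) e.1) ≤ J) with hF
  rcases F.eq_empty_or_nonempty with h | ⟨e₀, he₀⟩
  · rw [h, card_empty, Nat.cast_zero]
    positivity
  set T := (P \ R) ∪ R.filter (Dn R o J I) with hT
  have hTP : T ⊆ P := by
    intro z hz
    rw [hT, mem_union, mem_sdiff, mem_filter] at hz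
    rcases hz with h | h
    · exact h.1
    · exact hRP h.1
  have hTc : #T ≤ #(P \ R) + 4 * J + 8 := by
    have h1 : #T ≤ #(P \ R) + #(R.filter (Dn R o J I)) := card_union_le _ _
    have h2 := slab (hP.mono hRP) hR I hev
    omega
  set σ₀ := sl e₀.1 e₀.2 with hσ₀
  have hσI : σ₀ ∈ I := (mem_filter.1 he₀).2.1
  set c := #((P \ T).filter (fun w => H o σ₀ w < 0)) with hc
  have hnT : ∀ w ∈ P \ T, w ∈ R ∧ ¬ Dn R o J I w := by
    intro w hw
    rw [mem_sdiff, hT, mem_union, mem_sdiff, mem_filter] at hw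
    push Not at hw
    have h1 : w ∈ R := hw.2.1 hw.1
    exact ⟨h1, hw.2.2 h1⟩
  have hsub : F ⊆ kes T (k - c) := by
    intro e he
    rw [hF, mem_filter] at he
    obtain ⟨hk, hslI, hN⟩ := he
    have hke := mem_kes.1 hk
    set σ := sl e.1 e.2 with hσ
    have hVe : V o σ e.2 = V o σ e.1 := by
      unfold V
      rw [H_sl hP o hke.1 hke.2.1 (by
        intro h
        have := hke.2.2.1
        rw [h] at this
        exact lt_irrefl _ this)]
    have hmem : ∀ z ∈ P, V o σ z = V o σ e.1 → z ∈ T := by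
      intro z hz hzV
      rw [hT, mem_union, mem_sdiff, mem_filter]
      by_cases h : z ∈ R
      · exact Or.inr ⟨h, σ, hslI, by rw [hzV]; exact hN⟩
      · exact Or.inl ⟨hz, h⟩
    have hcmp : ∀ w ∈ P \ T, (hh σ w < hh σ e.1 ↔ H o σ₀ w < 0) := by
      intro w hw
      obtain ⟨hwR, hwD⟩ := hnT w hw
      have h1 : V o σ e.1 < V o σ w := by
        by_contra h2
        push Not at h2
        apply hwD
        exact ⟨σ, hslI, (N_mono h2).trans hN⟩
      have h2 : H o σ₀ w < 0 ↔ H o σ w < 0 :=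
        ⟨fun h => sign_const hI hσI hslI hwD h, fun h => sign_const hI hslI hσI hwD h⟩
      rw [h2]
      unfold V at h1
      have h3 : hh σ w < hh σ e.1 ↔ H o σ w < H o σ e.1 := by
        unfold H
        constructor <;> intro h <;> linarith
      rw [h3]
      rcases lt_or_ge (H o σ w) 0 with h4 | h4
      · rw [abs_of_neg h4] at h1
        have := (abs_lt.1 h1).1
        constructor
        · intro _; exact h4
        · intro _; linarith
      · rw [abs_of_nonneg h4] at h1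
        have := (abs_lt.1 h1).2
        constructor
        · intro h; linarith
        · intro h; linarith
    have hbel : bel P σ e.1 = bel T σ e.1 + c := by
      unfold bel
      rw [hc, ← filter_congr hcmp]
      rw [← card_union_of_disjoint]
      · congr 1
        ext z
        simp only [mem_filter, mem_union, mem_sdiff]
        constructor
        · rintro ⟨h1, h2⟩
          by_cases h3 : z ∈ T
          · exact Or.inl ⟨h3, h2⟩
          · exact Or.inr ⟨⟨h1, h3⟩, h2⟩
        · rintro (⟨h1, h2⟩ | ⟨⟨h1, -⟩, h2⟩)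
          · exact ⟨hTP h1, h2⟩
          · exact ⟨h1, h2⟩
      · rw [disjoint_left]
        intro z h1 h2
        exact (mem_sdiff.1 (mem_filter.1 h2).1).2 (mem_filter.1 h1).1
    rw [mem_kes]
    refine ⟨hmem _ hke.1 rfl, hmem _ hke.2.1 hVe, hke.2.2.1, ?_⟩
    have h5 : bel P σ e.1 = k := hke.2.2.2
    show bel T σ e.1 = k - c
    omega
  have h1 : (#F : ℝ) ≤ #(kes T (k - c)) := by exact_mod_cast card_le_card hsub
  have h2 := kes_bound (hP.mono hTP) (k := k - c) (c := 0) (fun i => i.elim0) (fun i => i.elim0)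
  have h3 : T \ (univ.biUnion (fun i : Fin 0 => (i.elim0 : Finset (ℝ × ℝ)))) = T := by
    simp
  rw [h3] at h2
  have h4 : (#T : ℝ) ≤ ((#(P \ R) + 4 * J + 8 : ℕ) : ℝ) := by exact_mod_cast hTc
  have h5 : ((#T : ℝ) * #T) ^ (2 / 3 : ℝ) ≤
      (((#(P \ R) + 4 * J + 8 : ℕ) : ℝ) * ((#(P \ R) + 4 * J + 8 : ℕ) : ℝ)) ^ (2 / 3 : ℝ) := by
    apply Real.rpow_le_rpow (by positivity) _ (by norm_num)
    exact mul_le_mul h4 h4 (by positivity) (by positivity)
  have h6 : (4 : ℝ) * ((0 : ℕ) : ℝ) * (#T : ℝ) = 0 := by simp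
  rw [h6, zero_add] at h2
  linarith

end Pool.Agent.U272.AS
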