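import Pool.Agent.U272.AS.Cross
import Pool.Agent.TH124.KE.Few

/-!
# Symmetric point sets: slabs of directions
-/

set_option autoImplicit false

namespace Pool.Agent.U272.AS

open Finset Pool.Agent.TH124.KE Filter Topology

lemma level_two {R : Finset (ℝ × ℝ)} (hG : GP R) (o : ℝ × ℝ) (σ v : ℝ) :
    #{p ∈ R | H o σ p = v} ≤ 2 := by
  by_contra hc
  push Not at hc
  obtain ⟨p, hp, q, hq, r, hr, hpq, hpr, hqr⟩ := Finset.two_lt_card.1 hc
  rw [mem_filter] at hp hq hr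
  have h1 : p.1 ≠ q.1 := hG.ne1 hp.1 hq.1 hpq
  have h2 : p.1 ≠ r.1 := hG.ne1 hp.1 hr.1 hpr
  have e1 : sl p q = σ := (hh_eq h1 σ).1 (by have := hp.2; have := hq.2; unfold H at *; linarith)
  have e2 : sl p r = σ := (hh_eq h2 σ).1 (by have := hp.2; have := hr.2; unfold H at *; linarith)
  exact hG.col p hp.1 q hq.1 r hr.1 hpq hpr hqr (e1.trans e2.symm)

lemma top_count {R : Finset (ℝ × ℝ)} (hG : GP R) (o : ℝ × ℝ) (σ : ℝ) (M : ℕ) :
    #{p ∈ R | N R o σ (V o σ p) ≤ M} ≤ M + 4 := by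
  classical
  rcases (R.filter (fun p => N R o σ (V o σ p) ≤ M)).eq_empty_or_nonempty with h | h
  · rw [h, card_empty]
    exact Nat.zero_le _
  · obtain ⟨p, hp, hmax⟩ := exists_max_image _ (fun p => V o σ p) h
    rw [mem_filter] at hp
    have hsub : (R.filter (fun p => N R o σ (V o σ p) ≤ M)) ⊆
        (R.filter (fun w => V o σ w < V o σ p)) ∪
          ((R.filter (fun w => H o σ w = V o σ p)) ∪ (R.filter (fun w => H o σ w = -V o σ p))) := by
      intro w hw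
      have h1 := hmax w hw
      rw [mem_filter] at hw
      rw [mem_union, mem_union, mem_filter, mem_filter, mem_filter]
      rcases lt_or_eq_of_le h1 with h2 | h2
      · exact Or.inl ⟨hw.1, h2⟩
      · right
        have h3 : |H o σ w| = V o σ p := h2
        rcases abs_choice (H o σ w) with h4 | h4
        · left
          exact ⟨hw.1, by rw [← h3, h4]⟩
        · right
          exact ⟨hw.1, by rw [← h3, h4, neg_neg]⟩
    have h1 := card_le_card hsub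
    have h2 := card_union_le (R.filter (fun w => V o σ w < V o σ p))
          ((R.filter (fun w => H o σ w = V o σ p)) ∪ (R.filter (fun w => H o σ w = -V o σ p)))
    have h3 := card_union_le (R.filter (fun w => H o σ w = V o σ p))
      (R.filter (fun w => H o σ w = -V o σ p))
    have h4 := level_two hG o σ (V o σ p)
    have h5 := level_two hG o σ (-V o σ p)
    have h6 : #(R.filter (fun w => V o σ w < V o σ p)) ≤ M := hp.2
    omega

open scoped Classical in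
/-- the events -/
noncomputable def EE (R : Finset (ℝ × ℝ)) (o : ℝ × ℝ) (M : ℕ) : Finset Seg :=
  (R ×ˢ R).filter (fun e => Ev R o M e.1 e.2)

/-- the points which come down to level `J` in the slab `I` -/
def Dn (R : Finset (ℝ × ℝ)) (o : ℝ × ℝ) (J : ℕ) (I : Set ℝ) (p : ℝ × ℝ) : Prop :=
  ∃ σ ∈ I, N R o σ (V o σ p) ≤ J

open scoped Classical in
theorem slab {R : Finset (ℝ × ℝ)} {o : ℝ × ℝ} (hG : GP R) (hR : ∀ p ∈ R, o + o - p ∈ R) {J : ℕ}
    (I : Set ℝ) (hI : ∀ σ₀ ∈ I, ∀ σ₁ ∈ I, σ₀ ≤ σ₁ →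
      #((EE R o (2 * J + 1)).filter (fun e => σ₀ < sl e.1 e.2 ∧ sl e.1 e.2 ≤ σ₁)) < (J + 2) ^ 2) :
    #(R.filter (Dn R o J I)) ≤ 4 * J + 8 := by
  set S := R.filter (Dn R o J I) with hS
  rcases S.eq_empty_or_nonempty with h | hne
  · rw [h, card_empty]
    exact Nat.zero_le _
  have hch : ∀ p : ℝ × ℝ, ∃ σ : ℝ, p ∈ S → σ ∈ I ∧ N R o σ (V o σ p) ≤ J := by
    intro p
    by_cases hp : p ∈ S
    · obtain ⟨σ, h1, h2⟩ := (mem_filter.1 hp).2
      exact ⟨σ, fun _ => ⟨h1, h2⟩⟩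
    · exact ⟨0, fun h => absurd h hp⟩
  choose g hg using hch
  obtain ⟨p₀, hp₀, hmin⟩ := exists_min_image S g hne
  obtain ⟨p₁, hp₁, hmax⟩ := exists_max_image S g hne
  set σ₀ := g p₀ with hσ₀
  set σ₁ := g p₁ with hσ₁
  have hev := hI σ₀ (hg p₀ hp₀).1 σ₁ (hg p₁ hp₁).1 (hmin p₁ hp₁)
  set E' := (EE R o (2 * J + 1)).filter (fun e => σ₀ < sl e.1 e.2 ∧ sl e.1 e.2 ≤ σ₁) with hE'
  set S' := S.filter (fun p => 2 * J + 1 < N R o σ₀ (V o σ₀ p)) with hS'
  have hfib : ∀ p ∈ S', J + 2 ≤ 2 * #((E'.filter (fun e => e.1 ∈ S')).filter (fun e => e.1 = p)) := by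
    intro p hp
    have hpS := (mem_filter.1 hp).1
    have hpR := (mem_filter.1 hpS).1
    have h1 := events_ge hG hR hpR (M := 2 * J + 1) (J := J) (by omega) (hmin p hpS)
      (mem_filter.1 hp).2 (hg p hpS).2
    have h2 : #(R.filter (fun q => Ev R o (2 * J + 1) p q ∧ σ₀ < sl p q ∧ sl p q ≤ g p)) ≤
        #((E'.filter (fun e => e.1 ∈ S')).filter (fun e => e.1 = p)) := by
      apply card_le_card_of_injOn (fun q => ((p, q) : Seg))
      · intro q hq
        rw [mem_coe, mem_filter] at hq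
        rw [mem_coe, mem_filter, mem_filter, hE', mem_filter]
        unfold EE
        rw [mem_filter, mem_product]
        exact ⟨⟨⟨⟨⟨hpR, hq.1⟩, hq.2.1⟩, hq.2.2.1, hq.2.2.2.trans (hmax p hpS)⟩, hp⟩, rfl⟩
      · intro q _ q' _ h
        exact congrArg Prod.snd h
    omega
  have hsum : #(E'.filter (fun e => e.1 ∈ S')) =
      ∑ p ∈ S', #((E'.filter (fun e => e.1 ∈ S')).filter (fun e => e.1 = p)) :=
    card_eq_sum_card_fiberwise (fun e he => (mem_filter.1 he).2)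
  have h1 : #S' * (J + 2) ≤ 2 * #E' := by
    calc #S' * (J + 2) = ∑ p ∈ S', (J + 2) := by rw [sum_const, smul_eq_mul]
      _ ≤ ∑ p ∈ S', 2 * #((E'.filter (fun e => e.1 ∈ S')).filter (fun e => e.1 = p)) :=
          sum_le_sum hfib
      _ = 2 * #(E'.filter (fun e => e.1 ∈ S')) := by rw [← mul_sum, ← hsum]
      _ ≤ 2 * #E' := Nat.mul_le_mul_left _ (card_le_card (filter_subset _ _))
  have h2 : #S' < 2 * (J + 2) := by
    by_contra hc
    push Not at hc
    have h3 : 2 * (J + 2) * (J + 2) ≤ #S' * (J + 2) := Nat.mul_le_mul_right _ hc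
    have h4 : 2 * (J + 2) * (J + 2) = 2 * (J + 2) ^ 2 := by ring
    omega
  have h3 : #S ≤ #S' + #(R.filter (fun p => N R o σ₀ (V o σ₀ p) ≤ 2 * J + 1)) := by
    refine (card_le_card ?_).trans (card_union_le _ _)
    intro p hp
    rw [mem_union]
    rcases le_or_gt (N R o σ₀ (V o σ₀ p)) (2 * J + 1) with h | h
    · exact Or.inr (mem_filter.2 ⟨(mem_filter.1 hp).1, h⟩)
    · exact Or.inl (mem_filter.2 ⟨hp, h⟩)
  have h4 := top_count hG o σ₀ (2 * J + 1)
  omega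

open scoped Classical in
/-- the rank of a direction -/
noncomputable def rk (E : Finset Seg) (σ : ℝ) : ℕ := #(E.filter (fun e => sl e.1 e.2 ≤ σ))

lemma rk_le (E : Finset Seg) (σ : ℝ) : rk E σ ≤ #E := card_le_card (filter_subset _ _)

open scoped Classical in
lemma rk_diff (E : Finset Seg) {σ₀ σ₁ : ℝ} (h : σ₀ ≤ σ₁) :
    #(E.filter (fun e => σ₀ < sl e.1 e.2 ∧ sl e.1 e.2 ≤ σ₁)) + rk E σ₀ = rk E σ₁ := by
  unfold rk
  rw [← card_union_of_disjoint]
  · congr 1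
    ext e
    simp only [mem_union, mem_filter]
    constructor
    · rintro (⟨h1, h2, h3⟩ | ⟨h1, h2⟩)
      · exact ⟨h1, h3⟩
      · exact ⟨h1, h2.trans h⟩
    · rintro ⟨h1, h2⟩
      rcases le_or_gt (sl e.1 e.2) σ₀ with h3 | h3
      · exact Or.inr ⟨h1, h3⟩
      · exact Or.inl ⟨h1, h3, h2⟩
  · rw [disjoint_filter]
    rintro e _ ⟨h1, -⟩ h2
    linarith

lemma rk_mono (E : Finset Seg) {σ₀ σ₁ : ℝ} (h : σ₀ ≤ σ₁) : rk E σ₀ ≤ rk E σ₁ := by
  have := rk_diff E h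
  omega

/-- the slab number `i` -/
def sb (E : Finset Seg) (m i : ℕ) : Set ℝ := {σ | rk E σ / m = i}

open scoped Classical in
lemma sb_events (E : Finset Seg) {m : ℕ} (hm : 0 < m) (i : ℕ) :
    ∀ σ₀ ∈ sb E m i, ∀ σ₁ ∈ sb E m i, σ₀ ≤ σ₁ →
      #(E.filter (fun e => σ₀ < sl e.1 e.2 ∧ sl e.1 e.2 ≤ σ₁)) < m := by
  intro σ₀ h0 σ₁ h1 h
  have h2 := rk_diff E h
  have h3 : rk E σ₀ / m = i := h0
  have h4 : rk E σ₁ / m = i := h1
  have h5 := Nat.div_add_mod (rk E σ₀) m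
  have h6 := Nat.div_add_mod (rk E σ₁) m
  have h7 := Nat.mod_lt (rk E σ₁) hm
  rw [h3] at h5
  rw [h4] at h6
  omega

lemma sb_convex (E : Finset Seg) (m i : ℕ) {σ₀ σ₁ ζ : ℝ} (h0 : σ₀ ∈ sb E m i) (h1 : σ₁ ∈ sb E m i)
    (h2 : σ₀ ≤ ζ) (h3 : ζ ≤ σ₁) : ζ ∈ sb E m i := by
  have h4 : rk E σ₀ / m = i := h0
  have h5 : rk E σ₁ / m = i := h1
  show rk E ζ / m = i
  apply le_antisymm
  · rw [← h5]
    exact Nat.div_le_div_right (rk_mono E h3)
  · rw [← h4]
    exact Nat.div_le_div_right (rk_mono E h2)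

end Pool.Agent.U272.AS
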