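import Pool.Agent.U272.AS.Main

/-!
# `k`-edges of almost centrally symmetric point sets: the bound
-/

set_option autoImplicit false

namespace Pool.Agent.U272.AS

open Finset Pool.Agent.TH124.KE

open scoped Classical in
/-- edges on lines through the centre -/
lemma centre_edges {P : Finset (ℝ × ℝ)} (hP : GP P) (o : ℝ × ℝ) (k : ℕ) :
    #((kes P k).filter (fun e => H o (sl e.1 e.2) e.1 = 0)) ≤ 2 * #P := by
  set A := (kes P k).filter (fun e => H o (sl e.1 e.2) e.1 = 0) with hA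
  have h1 : #(A.filter (fun e => e.1 = o)) ≤ #P := by
    apply card_le_card_of_injOn (fun e => e.2)
    · intro e he
      rw [mem_coe, mem_filter, hA, mem_filter, mem_kes] at he
      exact he.1.1.2.1
    · intro e he f hf hef
      rw [mem_coe, mem_filter] at he hf
      exact Prod.ext (he.2.trans hf.2.symm) hef
  have h2 : #(A.filter (fun e => ¬ e.1 = o)) ≤ #P := by
    apply card_le_card_of_injOn (fun e => e.1)
    · intro e he
      rw [mem_coe, mem_filter, hA, mem_filter, mem_kes] at he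
      exact he.1.1.1
    · intro e he f hf hef
      rw [mem_coe, mem_filter, hA, mem_filter, mem_kes] at he hf
      obtain ⟨⟨hke, hH⟩, heo⟩ := he
      obtain ⟨⟨hkf, hH'⟩, -⟩ := hf
      have hef' : e.1 = f.1 := hef
      have hs : sl e.1 e.2 = sl f.1 f.2 := by
        rw [← hef'] at hH' 
        unfold H hh at hH hH'
        have h3 : (sl e.1 e.2 - sl e.1 f.2) * (e.1.1 - o.1) = 0 := by linarith
        rcases mul_eq_zero.1 h3 with h4 | h4
        · rw [← hef']
          exact sub_eq_zero.1 h4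
        · exfalso
          apply heo
          have h5 : e.1.1 = o.1 := by linarith
          rw [h5] at hH
          exact Prod.ext h5 (by linarith)
      refine Prod.ext hef' ?_
      have hne : e.2 ≠ e.1 := by
        intro h
        have := hke.2.2.1
        rw [h] at this
        exact lt_irrefl _ this
      have hnf : f.2 ≠ e.1 := by
        intro h
        have := hkf.2.2.1
        rw [h, hef'] at this
        exact lt_irrefl _ this
      apply hP.injOn hke.1
      · rw [mem_coe, mem_erase]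
        exact ⟨hne, hke.2.1⟩
      · rw [mem_coe, mem_erase]
        exact ⟨hnf, hkf.2.1⟩
      · rw [hs, hef']
  have h3 : #A = #(A.filter (fun e => e.1 = o)) + #(A.filter (fun e => ¬ e.1 = o)) :=
    (card_filter_add_card_filter_not _).symm
  omega

theorem kes_nat {P R : Finset (ℝ × ℝ)} {o : ℝ × ℝ} (hP : GP P) (hRP : R ⊆ P)
    (hR : ∀ p ∈ R, o + o - p ∈ R) {t k J : ℕ} (ht : #(P \ R) ≤ t) (htJ : t ≤ J)
    (hJ1 : 2 * k + 2 + t ≤ #P + J) (hJ2 : #P + t ≤ 2 * k + 2 + J) :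
    (#(kes P k) : ℝ) ≤ 2 * #P + ((#(EE R o (2 * J + 1)) / (J + 2) ^ 2 + 1 : ℕ) : ℝ) *
      (7 * (((5 * (J + 2) : ℕ) : ℝ) * ((5 * (J + 2) : ℕ) : ℝ)) ^ (2 / 3 : ℝ)) := by
  classical
  set E := EE R o (2 * J + 1) with hE
  set m := (J + 2) ^ 2 with hm
  have hm0 : 0 < m := by positivity
  set F : ℕ → Finset Seg := fun i => (kes P k).filter (fun e => sl e.1 e.2 ∈ sb E m i ∧
      N R o (sl e.1 e.2) (V o (sl e.1 e.2) e.1) ≤ J) with hF
  have hFi : ∀ i, (#(F i) : ℝ) ≤
      7 * (((5 * (J + 2) : ℕ) : ℝ) * ((5 * (J + 2) : ℕ) : ℝ)) ^ (2 / 3 : ℝ) := by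
    intro i
    have h1 := kes_slab hP hRP hR (J := J) (k := k) (I := sb E m i)
      ⟨fun σ₀ h0 σ₁ h1 ζ hζ => sb_convex E m i h0 h1 hζ.1 hζ.2⟩ (sb_events E hm0 i)
    refine h1.trans ?_
    apply mul_le_mul_of_nonneg_left _ (by norm_num)
    apply Real.rpow_le_rpow (by positivity) _ (by norm_num)
    have h2 : ((#(P \ R) + 4 * J + 8 : ℕ) : ℝ) ≤ ((5 * (J + 2) : ℕ) : ℝ) := by
      exact_mod_cast (by omega : #(P \ R) + 4 * J + 8 ≤ 5 * (J + 2))
    exact mul_le_mul h2 h2 (by positivity) (by positivity)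
  have hsub : kes P k ⊆ ((kes P k).filter (fun e => H o (sl e.1 e.2) e.1 = 0)) ∪
      (range (#E / m + 1)).biUnion F := by
    intro e he
    rw [mem_union, mem_biUnion]
    by_cases h0 : H o (sl e.1 e.2) e.1 = 0
    · exact Or.inl (mem_filter.2 ⟨he, h0⟩)
    · right
      refine ⟨rk E (sl e.1 e.2) / m, ?_, ?_⟩
      · rw [mem_range]
        exact Nat.lt_succ_of_le (Nat.div_le_div_right (rk_le E _))
      · rw [hF, mem_filter]
        exact ⟨he, rfl, strip_N hP hRP hR ht hJ1 hJ2 (mem_kes.1 he) h0⟩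
  have h1 := card_le_card hsub
  have h2 := card_union_le ((kes P k).filter (fun e => H o (sl e.1 e.2) e.1 = 0))
      ((range (#E / m + 1)).biUnion F)
  have h3 := centre_edges hP o k
  have h4 : #((range (#E / m + 1)).biUnion F) ≤ ∑ i ∈ range (#E / m + 1), #(F i) := card_biUnion_le
  have h5 : (#((range (#E / m + 1)).biUnion F) : ℝ) ≤ ((#E / m + 1 : ℕ) : ℝ) *
      (7 * (((5 * (J + 2) : ℕ) : ℝ) * ((5 * (J + 2) : ℕ) : ℝ)) ^ (2 / 3 : ℝ)) := by
    calc (#((range (#E / m + 1)).biUnion F) : ℝ) ≤ ((∑ i ∈ range (#E / m + 1), #(F i) : ℕ) : ℝ) := by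
          exact_mod_cast h4
      _ = ∑ i ∈ range (#E / m + 1), (#(F i) : ℝ) := by push_cast; rfl
      _ ≤ ∑ i ∈ range (#E / m + 1),
          (7 * (((5 * (J + 2) : ℕ) : ℝ) * ((5 * (J + 2) : ℕ) : ℝ)) ^ (2 / 3 : ℝ)) :=
          sum_le_sum fun i _ => hFi i
      _ = _ := by rw [sum_const, card_range, nsmul_eq_mul]
  have h6 : (#(kes P k) : ℝ) ≤ 2 * #P + #((range (#E / m + 1)).biUnion F) := by
    exact_mod_cast (by omega : #(kes P k) ≤ 2 * #P + #((range (#E / m + 1)).biUnion F))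
  linarith

/-- **The bound.** -/
theorem kes_final {P R : Finset (ℝ × ℝ)} {o : ℝ × ℝ} (hP : GP P) (hRP : R ⊆ P)
    (hR : ∀ p ∈ R, o + o - p ∈ R) {t k d : ℕ} (ht : #(P \ R) ≤ t)
    (h1 : #P ≤ 2 * k + 2 + d) (h2 : 2 * k + 2 ≤ #P + d) :
    (#(kes P k) : ℝ) ≤ 500 * (#P + t) * ((d : ℝ) + t + 1) ^ (1 / 3 : ℝ) := by
  classical
  rcases (kes P k).eq_empty_or_nonempty with h | ⟨e, he⟩
  · rw [h, card_empty, Nat.cast_zero]
    positivity
  have hke := mem_kes.1 he
  have hk := bel_abv hP hke.1 hke.2.1 hke.2.2.1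
  rw [hke.2.2.2] at hk
  set J := min d #P + t with hJ
  have hJd : J ≤ d + t := by have := min_le_left d #P; omega
  have hJn : J ≤ #P + t := by have := min_le_right d #P; omega
  have key := kes_nat hP hRP hR (k := k) (J := J) ht (by omega) (by
    rcases min_choice d #P with h | h <;> omega) (by
    rcases min_choice d #P with h | h <;> omega)
  set X : ℝ := (J : ℝ) + 2 with hX
  have hX0 : 0 < X := by positivity
  have hE := EE_card (hP.mono hRP) hR (2 * J + 1)
  have hMJ : (2 * J + 1) / 2 = J := by omega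
  rw [hMJ] at hE
  have hRc : #R ≤ #P := card_le_card hRP
  -- the number of slabs
  have hslab : ((#(EE R o (2 * J + 1)) / (J + 2) ^ 2 + 1 : ℕ) : ℝ) ≤ 4 * #P / X + 1 := by
    push_cast
    have h3 : ((#(EE R o (2 * J + 1)) / (J + 2) ^ 2 : ℕ) : ℝ) ≤
        (#(EE R o (2 * J + 1)) : ℝ) / (((J + 2) ^ 2 : ℕ) : ℝ) := Nat.cast_div_le
    have h4 : (#(EE R o (2 * J + 1)) : ℝ) ≤ 4 * #P * X := by
      have h5 : #(EE R o (2 * J + 1)) ≤ 4 * #P * (J + 2) := by
        calc #(EE R o (2 * J + 1)) ≤ 2 * (2 * #R * (J + 1)) := hE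
          _ ≤ 2 * (2 * #P * (J + 2)) := by
              apply Nat.mul_le_mul_left
              exact Nat.mul_le_mul (Nat.mul_le_mul_left _ hRc) (by omega)
          _ = 4 * #P * (J + 2) := by ring
      have h6 : (#(EE R o (2 * J + 1)) : ℝ) ≤ ((4 * #P * (J + 2) : ℕ) : ℝ) := by exact_mod_cast h5
      push_cast at h6
      exact h6
    have h5 : (#(EE R o (2 * J + 1)) : ℝ) / (((J + 2) ^ 2 : ℕ) : ℝ) ≤ 4 * #P / X := by
      push_cast
      rw [← hX, div_le_div_iff₀ (by positivity) hX0]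
      calc (#(EE R o (2 * J + 1)) : ℝ) * X ≤ (4 * #P * X) * X :=
            mul_le_mul_of_nonneg_right h4 hX0.le
        _ = 4 * #P * X ^ 2 := by ring
    have h6 : ((#(EE R o (2 * J + 1)) / (J + 2) ^ 2 : ℕ) : ℝ) ≤ 4 * #P / X := h3.trans h5
    push_cast at h6
    linarith
  -- Dey in a slab
  set Y : ℝ := X ^ (1 / 3 : ℝ) with hY
  have hY0 : 0 ≤ Y := by positivity
  have hdey : 7 * (((5 * (J + 2) : ℕ) : ℝ) * ((5 * (J + 2) : ℕ) : ℝ)) ^ (2 / 3 : ℝ) ≤
      60 * (X * Y) := by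
    push_cast
    rw [← hX]
    have h3 : ((5 : ℝ) * X * (5 * X)) = 25 * X ^ 2 := by ring
    rw [h3, Real.mul_rpow (by norm_num) (by positivity)]
    have h4 : (X ^ 2) ^ (2 / 3 : ℝ) = X * Y := by
      rw [hY, ← Real.rpow_natCast X 2, ← Real.rpow_mul hX0.le]
      have : X * X ^ (1 / 3 : ℝ) = X ^ (1 : ℝ) * X ^ (1 / 3 : ℝ) := by rw [Real.rpow_one]
      rw [this, ← Real.rpow_add hX0]
      norm_num
    have h5 : (25 : ℝ) ^ (2 / 3 : ℝ) ≤ 60 / 7 := by
      refine le_of_pow_le_pow_left₀ (n := 3) (by norm_num) (by norm_num) ?_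
      rw [← Real.rpow_natCast, ← Real.rpow_mul (by norm_num)]
      norm_num
    rw [h4]
    have h6 : 0 ≤ X * Y := by positivity
    nlinarith
  have hmain : (#(kes P k) : ℝ) ≤ 2 * #P + (4 * #P / X + 1) * (60 * (X * Y)) := by
    have h3 := mul_le_mul hslab hdey (by positivity) (by positivity)
    linarith
  have h7 : (4 * (#P : ℝ) / X + 1) * (60 * (X * Y)) = (240 * #P + 60 * X) * Y := by
    field_simp
    ring
  rw [h7] at hmain
  have hn2 : (2 : ℝ) ≤ #P := by exact_mod_cast (by omega : 2 ≤ #P)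
  have ht0 : (0 : ℝ) ≤ t := Nat.cast_nonneg t
  have hXn : X ≤ 2 * (#P + t) := by
    have : (J : ℝ) ≤ #P + t := by exact_mod_cast hJn
    linarith
  set Z : ℝ := ((d : ℝ) + t + 1) ^ (1 / 3 : ℝ) with hZ
  have hZ1 : 1 ≤ Z := by
    apply Real.one_le_rpow _ (by norm_num)
    have : (0 : ℝ) ≤ d := Nat.cast_nonneg d
    linarith
  have hYZ : Y ≤ 1.26 * Z := by
    have h8 : X ≤ 2 * ((d : ℝ) + t + 1) := by
      have : (J : ℝ) ≤ d + t := by exact_mod_cast hJd
      have h9 : (0 : ℝ) ≤ d := Nat.cast_nonneg d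
      linarith
    calc Y ≤ (2 * ((d : ℝ) + t + 1)) ^ (1 / 3 : ℝ) := Real.rpow_le_rpow hX0.le h8 (by norm_num)
      _ = 2 ^ (1 / 3 : ℝ) * Z := by rw [Real.mul_rpow (by norm_num) (by positivity)]
      _ ≤ 1.26 * Z := by
          apply mul_le_mul_of_nonneg_right _ (by positivity)
          refine le_of_pow_le_pow_left₀ (n := 3) (by norm_num) (by norm_num) ?_
          rw [← Real.rpow_natCast, ← Real.rpow_mul (by norm_num)]
          norm_num
  have h8 : (240 * (#P : ℝ) + 60 * X) * Y ≤ (360 * (#P + t)) * (1.26 * Z) := by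
    apply mul_le_mul _ hYZ hY0 (by positivity)
    linarith
  have h9 : 2 * (#P : ℝ) ≤ 2 * (#P + t) * Z := by
    nlinarith
  nlinarith

end Pool.Agent.U272.AS
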